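import Pool.Agent.R892.Ord.Defs
import Pool.Agent.H671R2.PolyAuto
import Pool.Agent.NPC.Dec

/-!
# Isomorphisms of bounded order: the problem is in NP
-/

set_option autoImplicit false

namespace Pool.Agent.NPC.R892

open Pool.Agent.R892.Ord Pool.Agent.NPC.R671

/-- entry of a matrix given by rows -/
def ent (M : List (List Bool)) (i j : ℕ) : Bool := (M.getD i []).getD j false

/-- the matrix is the adjacency matrix of a graph -/
def IsAdj (M : List (List Bool)) : Prop :=
  (∀ r ∈ M, r.length = M.length) ∧ (∀ i < M.length, ent M i i = false) ∧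
    ∀ i < M.length, ∀ j < M.length, ent M i j = ent M j i

theorem eq_ofFn {M : List (List Bool)} (h : ∀ r ∈ M, r.length = M.length) :
    M = List.ofFn fun i : Fin M.length => List.ofFn fun j : Fin M.length => ent M i j := by
  apply List.ext_getElem
  · simp
  · intro i h1 h2
    simp only [List.getElem_ofFn]
    have h3 := h M[i] (List.getElem_mem h1)
    apply List.ext_getElem
    · simpa using h3
    · intro j h4 h5
      simp only [List.getElem_ofFn, ent]
      rw [List.getD_eq_getElem _ _ h1, List.getD_eq_getElem _ _ h4]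

theorem length_adjMatrix {n : ℕ} (G : SimpleGraph (Fin n)) : (adjMatrix G).length = n := by
  simp [adjMatrix]

theorem ent_adjMatrix {n : ℕ} (G : SimpleGraph (Fin n)) (i j : Fin n) :
    ent (adjMatrix G) i j = true ↔ G.Adj i j := by
  classical
  have h1 : (adjMatrix G).getD i [] = List.ofFn fun j => decide (G.Adj i j) := by
    unfold adjMatrix
    rw [List.getD_eq_getElem _ _ (by simp), List.getElem_ofFn]
  unfold ent
  rw [h1, List.getD_eq_getElem _ _ (by simp), List.getElem_ofFn, decide_eq_true_iff]

theorem isAdj_adjMatrix {n : ℕ} (G : SimpleGraph (Fin n)) : IsAdj (adjMatrix G) := by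
  refine ⟨?_, ?_, ?_⟩
  · intro r hr
    rw [length_adjMatrix]
    unfold adjMatrix at hr
    rw [List.mem_ofFn] at hr
    obtain ⟨i, rfl⟩ := hr
    simp
  · intro i hi
    rw [length_adjMatrix] at hi
    have := ent_adjMatrix G ⟨i, hi⟩ ⟨i, hi⟩
    rw [← Bool.not_eq_true]
    intro h
    exact G.loopless.irrefl _ (this.1 h)
  · intro i hi j hj
    rw [length_adjMatrix] at hi hj
    have h1 := ent_adjMatrix G ⟨i, hi⟩ ⟨j, hj⟩
    have h2 := ent_adjMatrix G ⟨j, hj⟩ ⟨i, hi⟩
    rw [Bool.eq_iff_iff]
    exact h1.trans ((G.adj_comm _ _).trans h2.symm)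

/-- the graph of a matrix -/
def matG (M : List (List Bool)) (n : ℕ) (h : IsAdj M) (hn : M.length = n) :
    SimpleGraph (Fin n) where
  Adj i j := ent M i j = true
  symm := ⟨fun i j hij => by rw [h.2.2 _ (by omega) _ (by omega)]; exact hij⟩
  loopless := ⟨fun i hi => by rw [h.2.1 _ (by omega)] at hi; exact absurd hi (by simp)⟩

theorem adjMatrix_matG (M : List (List Bool)) (n : ℕ) (h : IsAdj M) (hn : M.length = n) :
    adjMatrix (matG M n h hn) = M := by
  subst hn
  conv_rhs => rw [eq_ofFn h.1]
  unfold adjMatrix matG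
  simp

theorem iso_iff {m : ℕ} (hm : m ≠ 0) (I : List (List Bool) × List (List Bool)) :
    IsoWithPowerOne m I ↔ IsAdj I.1 ∧ IsAdj I.2 ∧ I.1.length = I.2.length ∧
      ∃ w : ℕ → ℕ, (∀ i < I.1.length, w i < I.1.length ∧ w^[m] i = i) ∧
        ∀ i < I.1.length, ∀ j < I.1.length, ent I.1 i j = ent I.2 (w i) (w j) := by
  constructor
  · rintro ⟨n, G, H, h1, h2, π, h3, h4⟩
    rw [← h1, ← h2, length_adjMatrix, length_adjMatrix]
    refine ⟨isAdj_adjMatrix _, isAdj_adjMatrix _, rfl, fun i => if h : i < n then π ⟨i, h⟩ else 0,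
      ?_, ?_⟩
    · intro i hi
      beta_reduce
      have key : ∀ k : ℕ, (fun i => if h : i < n then ((π ⟨i, h⟩ : Fin n) : ℕ) else 0)^[k] i =
          ((π ^ k) ⟨i, hi⟩ : Fin n) := by
        intro k
        induction k with
        | zero => simp
        | succ k ih =>
          rw [Function.iterate_succ_apply', ih, dif_pos (Fin.isLt _), pow_succ',
            Equiv.Perm.mul_apply]
      refine ⟨?_, ?_⟩
      · rw [dif_pos hi]
        exact Fin.isLt _
      · rw [key, h3]
        rfl
    · intro i hi j hj
      beta_reduce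
      rw [dif_pos hi, dif_pos hj, Bool.eq_iff_iff]
      have e1 := ent_adjMatrix G ⟨i, hi⟩ ⟨j, hj⟩
      have e2 := ent_adjMatrix H (π ⟨i, hi⟩) (π ⟨j, hj⟩)
      exact e1.trans ((h4 _ _).trans e2.symm)
  · rintro ⟨h1, h2, h3, w, h4, h5⟩
    obtain ⟨W, hW⟩ : ∃ W : Fin I.1.length → Fin I.1.length, ∀ i, (W i : ℕ) = w i :=
      ⟨fun i => ⟨w i, (h4 i i.2).1⟩, fun _ => rfl⟩
    have hk : ∀ k : ℕ, ∀ i : Fin I.1.length, ((W^[k] i : Fin I.1.length) : ℕ) = w^[k] i := by
      intro k
      induction k with
      | zero => intro i; rfl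
      | succ k ih => intro i; rw [Function.iterate_succ_apply', Function.iterate_succ_apply', ← ih, hW]
    have hid : ∀ i, W^[m] i = i := fun i => Fin.ext (by rw [hk]; exact (h4 i i.2).2)
    have hinj : Function.Injective W := by
      obtain ⟨k, rfl⟩ := Nat.exists_eq_succ_of_ne_zero hm
      intro i j hij
      have e1 := hid i
      have e2 := hid j
      rw [Function.iterate_succ_apply] at e1 e2
      rw [← e1, ← e2, hij]
    refine ⟨I.1.length, matG I.1 _ h1 rfl, matG I.2 _ h2 h3.symm, adjMatrix_matG _ _ _ _,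
      adjMatrix_matG _ _ _ _, Equiv.ofBijective _ (Finite.injective_iff_bijective.1 hinj), ?_, ?_⟩
    · ext i
      have hk : ∀ k : ℕ, ((Equiv.ofBijective _ (Finite.injective_iff_bijective.1 hinj)) ^ k :
          Equiv.Perm (Fin I.1.length)) i = W^[k] i := by
        intro k
        induction k with
        | zero => rfl
        | succ k ih =>
          rw [Function.iterate_succ_apply', ← ih, pow_succ', Equiv.Perm.mul_apply]
          rfl
      rw [hk, hid]
      rfl
    · intro i j
      show ent I.1 i j = true ↔ ent I.2 (W i) (W j) = true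
      rw [h5 i i.2 j j.2, hW, hW]

/-- the matrix is the adjacency matrix of a graph -/
def isAdjB (M : List (List Bool)) : Bool :=
  (M.all fun r => decide (r.length = M.length)) &&
  ((List.range M.length).all (fun i => !ent M i i) &&
  (List.range M.length).all fun i => (List.range M.length).all fun j =>
    decide (ent M i j = ent M j i))

theorem isAdjB_iff (M : List (List Bool)) : isAdjB M = true ↔ IsAdj M := by
  unfold isAdjB IsAdj
  simp only [Bool.and_eq_true, List.all_eq_true, decide_eq_true_eq, List.mem_range,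
    Bool.not_eq_true']

/-- The verifier. -/
def chk (m : ℕ) (p : (List (List Bool) × List (List Bool)) × List ℕ) : Bool :=
  isAdjB p.1.1 && (isAdjB p.1.2 && (decide (p.1.1.length = p.1.2.length) &&
  ((List.range p.1.1.length).all (fun i => decide (p.2.getD i 0 < p.1.1.length) &&
    decide ((fun k => p.2.getD k 0)^[m] i = i)) &&
  (List.range p.1.1.length).all fun i => (List.range p.1.1.length).all fun j =>
    decide (ent p.1.1 i j = ent p.1.2 (p.2.getD i 0) (p.2.getD j 0)))))

theorem chk_iff (m : ℕ) (I : List (List Bool) × List (List Bool)) (w : List ℕ) :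
    chk m (I, w) = true ↔ IsAdj I.1 ∧ IsAdj I.2 ∧ I.1.length = I.2.length ∧
      (∀ i < I.1.length, w.getD i 0 < I.1.length ∧ (fun k => w.getD k 0)^[m] i = i) ∧
        ∀ i < I.1.length, ∀ j < I.1.length, ent I.1 i j = ent I.2 (w.getD i 0) (w.getD j 0) := by
  unfold chk
  simp only [Bool.and_eq_true, List.all_eq_true, decide_eq_true_eq, List.mem_range, isAdjB_iff]

variable {α : Type} [TEnc α]

theorem poly_ent {M : α → List (List Bool)} {i j : α → ℕ} (hM : Poly M) (hi : Poly i)
    (hj : Poly j) : Poly (fun a => ent (M a) (i a) (j a)) := by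
  unfold ent
  fun_prop

theorem poly_isAdjB : Poly isAdjB := by
  unfold isAdjB
  have h : ∀ {α : Type} [TEnc α] {f : α → List (List Bool)}, Poly f →
      Poly (fun a => List.range (f a).length) := fun hf => Poly.range_length hf
  refine Poly.and (by fun_prop) (Poly.and ?_ ?_)
  · refine Poly.all (h Poly.id) ?_
    have := poly_ent (α := List (List Bool) × ℕ) (Poly.fst Poly.id) (Poly.snd Poly.id)
      (Poly.snd Poly.id)
    exact Poly.not this
  · refine Poly.all (h Poly.id) ?_
    refine Poly.all (h (Poly.fst Poly.id)) ?_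
    exact Poly.dec_eq (poly_ent (Poly.fst (Poly.fst Poly.id)) (Poly.snd (Poly.fst Poly.id))
      (Poly.snd Poly.id)) (poly_ent (Poly.fst (Poly.fst Poly.id)) (Poly.snd Poly.id)
      (Poly.snd (Poly.fst Poly.id)))

theorem poly_iter (m : ℕ) {w : α → List ℕ} {i : α → ℕ} (hw : Poly w) (hi : Poly i) :
    Poly (fun a => (fun k => (w a).getD k 0)^[m] (i a)) := by
  induction m with
  | zero => exact hi
  | succ m ih =>
    simp only [Function.iterate_succ_apply']
    exact Poly.getD hw ih (Poly.const 0)

theorem poly_chk (m : ℕ) : Poly (chk m) := by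
  unfold chk
  have h : ∀ {α : Type} [TEnc α] {f : α → List (List Bool)}, Poly f →
      Poly (fun a => List.range (f a).length) := fun hf => Poly.range_length hf
  refine Poly.and (poly_isAdjB.comp (Poly.fst (Poly.fst Poly.id))) (Poly.and
    (poly_isAdjB.comp (Poly.snd (Poly.fst Poly.id))) (Poly.and (by fun_prop) (Poly.and ?_ ?_)))
  · refine Poly.all (h (Poly.fst (Poly.fst Poly.id))) (Poly.and (by fun_prop) ?_)
    exact Poly.dec_eq (poly_iter m (Poly.snd (Poly.fst Poly.id)) (Poly.snd Poly.id))
      (Poly.snd Poly.id)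
  · refine Poly.all (h (Poly.fst (Poly.fst Poly.id))) ?_
    refine Poly.all (h (Poly.fst (Poly.fst (Poly.fst Poly.id)))) ?_
    refine Poly.dec_eq (poly_ent (by fun_prop) (by fun_prop) (by fun_prop)) (poly_ent (by fun_prop)
      (by fun_prop) (by fun_prop))

theorem inNPP_iso {m : ℕ} (hm : m ≠ 0) : InNPP (IsoWithPowerOne m) := by
  refine inNPP_of (β := List ℕ) (poly_chk m)
    (Polynomial.X * (Polynomial.C 4 * Polynomial.X + Polynomial.C 2) + Polynomial.C 1) ?_
  intro I
  rw [iso_iff hm]
  constructor
  · rintro ⟨h1, h2, h3, w, h4, h5⟩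
    have h6 : I.1.length ≤ sz I := by
      have e1 := length_lt_sz I.1
      have e2 : sz I.1 ≤ sz I := by
        rcases I with ⟨a, b⟩
        simp only [sz_pair]
        omega
      omega
    refine ⟨List.ofFn fun i : Fin I.1.length => w i, ?_, ?_⟩
    · have h7 : ∀ a ∈ List.ofFn (fun i : Fin I.1.length => w i), sz a ≤ 4 * sz I + 1 := by
        intro a ha
        rw [List.mem_ofFn] at ha
        obtain ⟨i, rfl⟩ := ha
        have e3 := sz_nat_le (w i)
        have e4 : Nat.size (w i) ≤ w i := by
          rw [Nat.size_le]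
          exact Nat.lt_two_pow_self
        have e5 := (h4 i i.2).1
        omega
      have h8 := sz_le_length_mul _ _ h7
      rw [List.length_ofFn] at h8
      simp only [Polynomial.eval_add, Polynomial.eval_mul, Polynomial.eval_X, Polynomial.eval_C]
      refine h8.trans ?_
      gcongr
    · have hget : ∀ k < I.1.length, (List.ofFn fun i : Fin I.1.length => w i).getD k 0 = w k := by
        intro k hk
        rw [List.getD_eq_getElem _ _ (by simpa using hk)]
        simp
      have hlt : ∀ (n : ℕ), ∀ i < I.1.length, w^[n] i < I.1.length ∧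
          (fun k => (List.ofFn fun i : Fin I.1.length => w i).getD k 0)^[n] i = w^[n] i := by
        intro n
        induction n with
        | zero => intro i hi; exact ⟨hi, rfl⟩
        | succ n ih =>
          intro i hi
          rw [Function.iterate_succ_apply', Function.iterate_succ_apply', (ih i hi).2,
            hget _ (ih i hi).1]
          exact ⟨(h4 _ (ih i hi).1).1, rfl⟩
      rw [chk_iff]
      refine ⟨h1, h2, h3, fun i hi => ?_, fun i hi j hj => ?_⟩
      · rw [hget i hi, (hlt m i hi).2]
        exact h4 i hi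
      · rw [hget i hi, hget j hj]
        exact h5 i hi j hj
  · rintro ⟨w, -, hw⟩
    rw [chk_iff] at hw
    obtain ⟨h1, h2, h3, h4, h5⟩ := hw
    exact ⟨h1, h2, h3, fun k => w.getD k 0, h4, h5⟩

end Pool.Agent.NPC.R892
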