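import Pool.Agent.H671R2.ZDefs

/-!
# Isomorphisms of bounded order: the problem
-/

set_option autoImplicit false

namespace Pool.Agent.R892.Ord

open Pool.Agent.NPC Pool.Agent.NPC.R671

/-- The decision problem for isomorphisms whose `m`-th power is the identity. The input consists of
the adjacency matrices of two graphs `G` and `H` on the same vertex set `{0, ..., n-1}`; the question
is whether there is a permutation `π` of the vertex set with `π ^ m = 1` which is an isomorphism
of `G` to `H`. -/
def IsoWithPowerOne (m : ℕ) (I : List (List Bool) × List (List Bool)) : Prop :=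
  ∃ (n : ℕ) (G H : SimpleGraph (Fin n)), adjMatrix G = I.1 ∧ adjMatrix H = I.2 ∧
    ∃ π : Equiv.Perm (Fin n), π ^ m = 1 ∧ ∀ u v, G.Adj u v ↔ H.Adj (π u) (π v)

end Pool.Agent.R892.Ord
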