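import Pool.Agent.R892.Ord.Struct

/-!
# Isomorphisms of bounded order: the degrees are bounded
-/

set_option autoImplicit false
set_option linter.unusedSectionVars false

namespace Pool.Agent.R892.Ord

variable {q M K : ℕ} [NeZero q]

/-- Everything but the index of a vertex. -/
def rel : Vx q M K → Fin 6 × Fin 3 × Fin 3 × ZMod q × ZMod q × (ZMod q → ZMod q)
  | .X r _ c a => (0, r, c, a, 0, 0)
  | .T _ a b => (1, 0, 0, a, b, 0)
  | .L r _ c k i => (2, r, c, k, i, 0)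
  | .W _ c h => (3, 0, c, 0, 0, h)
  | .P _ => (4, 0, 0, 0, 0, 0)
  | .Q _ => (5, 0, 0, 0, 0, 0)

/-- The index of a vertex. -/
def ix : Vx q M K → ℕ
  | .X _ o _ _ => o.1
  | .T o _ _ => o.1
  | .L _ e _ _ _ => e.1
  | .W e _ _ => e.1
  | .P j => j.1
  | .Q j => j.1

theorem ext_rel {u v : Vx q M K} (h : rel u = rel v) (h' : ix u = ix v) : u = v := by
  rcases u with ⟨r, o, c, a⟩ | ⟨o, a, b⟩ | ⟨r, e, c, k, i⟩ | ⟨e, c, w⟩ | j | j <;>
    rcases v with ⟨r', o', c', a'⟩ | ⟨o', a', b'⟩ | ⟨r', e', c', k', i'⟩ | ⟨e', c', w'⟩ | j' | j' <;>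
    simp only [rel, Prod.mk.injEq, Fin.reduceEq, false_and, ix] at h h'
  · obtain ⟨-, rfl, rfl, rfl, -⟩ := h
    rw [Fin.ext h']
  · obtain ⟨-, -, -, rfl, rfl, -⟩ := h
    rw [Fin.ext h']
  · obtain ⟨-, rfl, rfl, rfl, rfl, -⟩ := h
    rw [Fin.ext h']
  · obtain ⟨-, -, rfl, -, -, rfl⟩ := h
    rw [Fin.ext h']
  · rw [Fin.ext h']
  · rw [Fin.ext h']

/-- What adjacency says about the indices. -/
def Rix (nm : Fin (2 * M) → ℕ) : Vx q M K → Vx q M K → Prop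
  | .X _ o _ _, .X _ o' _ _ => o.1 = o'.1 ∨ Nxt nm o o'
  | .T o _ _, .X _ o' _ _ => o.1 = o'.1
  | .L _ e _ _ _, .L _ e' _ _ _ => e.1 = e'.1
  | .L _ e _ _ _, .X _ o _ _ => o.1 = 2 * e.1
  | .W e _ _, .L _ e' _ _ _ => e.1 = e'.1
  | .W e _ _, .X _ o _ _ => o.1 = 2 * e.1 + 1
  | .P j, .P j' => j'.1 = j.1 + 1
  | .P j, .Q j' => j'.1 = j.1 ∨ (j.1 = 0 ∧ j'.1 = K)
  | .P j, .X r o c _ => j.1 = 32 * o.1 + (3 * c.1 + r.1)
  | .P j, .T o _ _ => j.1 = 32 * o.1 + 9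
  | .P j, .L r e c _ _ => j.1 = 32 * e.1 + (10 + 4 * c.1 + r.1)
  | .P j, .W e c _ => j.1 = 32 * e.1 + (13 + 4 * c.1)
  | _, _ => False

theorem R_ix {nm : Fin (2 * M) → ℕ} {g : ZMod q} {u v : Vx q M K} (h : R nm g u v) :
    Rix nm u v := by
  rcases u with ⟨r, o, c, a⟩ | ⟨o, a, b⟩ | ⟨r, e, c, k, i⟩ | ⟨e, c, w⟩ | j | j <;>
    rcases v with ⟨r', o', c', a'⟩ | ⟨o', a', b'⟩ | ⟨r', e', c', k', i'⟩ | ⟨e', c', w'⟩ | j' | j' <;>
    try exact h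
  · rcases h with h | h
    · exact Or.inl (by rw [h.1])
    · exact Or.inr h.2.2.1
  · show o.1 = o'.1
    rw [h.2.1]
  · exact h.2.2.1
  · show e.1 = e'.1
    rw [h.1]
  · exact h.2.1
  · show e.1 = e'.1
    rw [h.2.1]

theorem nxt_unique {nm : Fin (2 * M) → ℕ} {o o' o'' : Fin (2 * M)} (h : Nxt nm o o')
    (h' : Nxt nm o o'') : o' = o'' := by
  rcases lt_trichotomy o' o'' with hlt | rfl | hlt
  · exact absurd h.1.symm (h'.2.2 o' h.2.1 hlt)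
  · rfl
  · exact absurd h'.1.symm (h.2.2 o'' h'.2.1 hlt)

theorem nxt_unique' {nm : Fin (2 * M) → ℕ} {o o' o'' : Fin (2 * M)} (h : Nxt nm o' o)
    (h' : Nxt nm o'' o) : o' = o'' := by
  rcases lt_trichotomy o' o'' with hlt | rfl | hlt
  · exact absurd (h'.1.trans h.1.symm) (h.2.2 o'' hlt h'.2.1)
  · rfl
  · exact absurd (h.1.trans h'.1.symm) (h'.2.2 o' hlt h.2.1)

theorem ix_eq {nm : Fin (2 * M) → ℕ} {v u u' : Vx q M K} (h : Rix nm v u ∨ Rix nm u v)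
    (h' : Rix nm v u' ∨ Rix nm u' v) (hr : rel u = rel u')
    (h1 : ix u < ix v ↔ ix u' < ix v) (h2 : ix u = ix v ↔ ix u' = ix v) : ix u = ix u' := by
  rcases u with ⟨r, o, c, a⟩ | ⟨o, a, b⟩ | ⟨r, e, c, k, i⟩ | ⟨e, c, w⟩ | j | j <;>
    rcases u' with ⟨r', o', c', a'⟩ | ⟨o', a', b'⟩ | ⟨r', e', c', k', i'⟩ | ⟨e', c', w'⟩ | j' | j' <;>
    simp only [rel, Prod.mk.injEq, Fin.reduceEq, false_and] at hr
  · obtain ⟨-, rfl, rfl, rfl, -⟩ := hr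
    rcases v with ⟨r₀, o₀, c₀, a₀⟩ | ⟨o₀, a₀, b₀⟩ | ⟨r₀, e₀, c₀, k₀, i₀⟩ | ⟨e₀, c₀, w₀⟩ | j₀ | j₀
    · simp only [Rix, ix] at *
      rcases h with (h | h) | (h | h) <;> rcases h' with (h' | h') | (h' | h')
      all_goals first
        | omega
        | (have e1 := h.2.1; omega)
        | (have e2 := h'.2.1; omega)
        | (have e1 := h.2.1; have e2 := h'.2.1; omega)
        | exact congrArg Fin.val (nxt_unique h h')
        | exact congrArg Fin.val (nxt_unique' h h')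
        | (exfalso; have e1 := h.2.1; have e2 := h'.2.1; rw [Fin.lt_def] at e1 e2; omega)
        | (exfalso; have e1 := h.2.1; rw [Fin.lt_def] at e1; omega)
        | (exfalso; have e2 := h'.2.1; rw [Fin.lt_def] at e2; omega)
    all_goals (simp only [Rix, ix, or_false] at * <;> omega)
  all_goals
    rcases v with ⟨r₀, o₀, c₀, a₀⟩ | ⟨o₀, a₀, b₀⟩ | ⟨r₀, e₀, c₀, k₀, i₀⟩ | ⟨e₀, c₀, w₀⟩ | j₀ | j₀
  all_goals
    simp only [Rix, ix, or_false, false_or] at *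
  all_goals first
    | omega
    | (obtain ⟨-, rfl, rfl, -⟩ := hr; omega)

/-- The bound for the degrees. -/
noncomputable def dg (q : ℕ) : ℕ := Nat.card ((Fin 6 × Fin 3 × Fin 3 × ZMod q × ZMod q × (ZMod q → ZMod q)) × Prop × Prop)

theorem degree_le (nm : Fin (2 * M) → ℕ) (g : ZMod q) (v : Vx q M K) :
    {u | Ad nm g v u}.ncard ≤ dg q := by
  unfold dg
  rw [← Set.ncard_univ]
  refine Set.ncard_le_ncard_of_injOn (fun u => (rel u, ix u < ix v, ix u = ix v))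
    (fun _ _ => Set.mem_univ _) ?_ Set.finite_univ
  intro u hu u' hu' h
  simp only [Prod.mk.injEq] at h
  obtain ⟨h1, h2, h3⟩ := h
  refine ext_rel h1 (ix_eq (nm := nm) (v := v) ?_ ?_ h1 (iff_of_eq h2) (iff_of_eq h3))
  · exact hu.imp R_ix R_ix
  · exact hu'.imp R_ix R_ix

end Pool.Agent.R892.Ord
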