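import Pool.Agent.R892.Ord.PolyRed
import Pool.Agent.R892.Ord.Mem
import Pool.Agent.NPC.Hard

/-!
# Isomorphisms of bounded order: assembly
-/

set_option autoImplicit false

namespace Pool.Agent.NPC.R892

open Pool.Agent.R892.Ord Pool.Agent.NPC.R671 Pool.Agent.H692R2

theorem iso_adjMatrix {m n : ℕ} (G H : SimpleGraph (Fin n)) :
    IsoWithPowerOne m (adjMatrix G, adjMatrix H) ↔
      ∃ π : Equiv.Perm (Fin n), π ^ m = 1 ∧ ∀ u v, G.Adj u v ↔ H.Adj (π u) (π v) := by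
  constructor
  · rintro ⟨n', G', H', h1, h2, h3⟩
    have hn : n' = n := by
      have := congrArg List.length h1
      rwa [length_adjMatrix, length_adjMatrix] at this
    subst hn
    rw [adjMatrix_inj h1, adjMatrix_inj h2] at h3
    exact h3
  · intro h
    exact ⟨n, G, H, rfl, rfl, h⟩

theorem hard_main (m : ℕ) (hm : 2 ≤ m) : ∃ D : ℕ, ∀ L : Set (List Bool), InNP L →
    ∃ f : List Bool → List Bool, PolyTime f ∧
    ∀ x, ∃ (n : ℕ) (G H : SimpleGraph (Fin n)), f x = bits (adjMatrix G, adjMatrix H) ∧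
      Nonempty (G ≃g H) ∧ (∀ v, (G.neighborSet v).ncard ≤ D ∧ (H.neighborSet v).ncard ≤ D) ∧
      (x ∈ L ↔ ∃ π : Equiv.Perm (Fin n), π ^ m = 1 ∧ ∀ u v, G.Adj u v ↔ H.Adj (π u) (π v)) := by
  obtain ⟨q, hq, hq0⟩ := exists_good hm
  have : NeZero q := ⟨by omega⟩
  refine ⟨dg q, fun L hL => ?_⟩
  obtain ⟨g, hg, -, hgL⟩ := hardPr_col3 L hL
  refine ⟨fun x => bits (mtr q (g x) 0, mtr q (g x) 1), ?_, fun x => ?_⟩
  · exact PC.toPolyTime_bits (f := fun E => (mtr q E 0, mtr q E 1))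
      (Poly.pair (poly_mtr q 0) (poly_mtr q 1)) g hg
  · refine ⟨_, gr q (g x) 0, gr q (g x) 1, ?_, gr_iso _, fun v => ⟨gr_degree _ _ v,
      gr_degree _ _ v⟩, ?_⟩
    · rw [adjMatrix_gr, adjMatrix_gr]
    · rw [hgL]
      exact gr_order hq _

theorem npHard_iso (m : ℕ) (hm : 2 ≤ m) : NPHardP (IsoWithPowerOne m) := by
  obtain ⟨D, hD⟩ := hard_main m hm
  intro L hL
  obtain ⟨f, hf, h⟩ := hD L hL
  refine ⟨f, hf, fun x => ?_⟩
  obtain ⟨n, G, H, h1, -, -, h2⟩ := h x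
  rw [h2, ← iso_adjMatrix]
  constructor
  · intro h3
    exact ⟨_, h1.symm, h3⟩
  · rintro ⟨a, ha, h3⟩
    rw [h1] at ha
    rwa [bits_injective ha] at h3

end Pool.Agent.NPC.R892
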