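import Mathlib

/-!
# Isomorphisms of bounded order: the gadgets

Blocks of vertices indexed by `ZMod q`, products of shifts, and a rigid path that colours the
classes.
-/

set_option autoImplicit false
set_option linter.unusedSectionVars false

namespace Pool.Agent.R892.Ord

/-- Vertices of the construction. -/
inductive Vx (q M K : ℕ) : Type
  | X (r : Fin 3) (o : Fin (2 * M)) (c : Fin 3) (a : ZMod q)
  | T (o : Fin (2 * M)) (a b : ZMod q)
  | L (r : Fin 3) (e : Fin M) (c : Fin 3) (k i : ZMod q)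
  | W (e : Fin M) (c : Fin 3) (h : ZMod q → ZMod q)
  | P (j : Fin K)
  | Q (j : Fin (K + 1))

variable {q M K : ℕ} [NeZero q]

/-- `o'` is the next copy of the same vertex after `o`. -/
def Nxt (nm : Fin (2 * M) → ℕ) (o o' : Fin (2 * M)) : Prop :=
  nm o = nm o' ∧ o < o' ∧ ∀ k, o < k → k < o' → nm k ≠ nm o

/-- The class of a core vertex. -/
def code : Vx q M K → ℕ
  | .X r o c _ => 32 * o.1 + (3 * c.1 + r.1)
  | .T o _ _ => 32 * o.1 + 9
  | .L r e c _ _ => 32 * e.1 + (10 + 4 * c.1 + r.1)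
  | .W e c _ => 32 * e.1 + (13 + 4 * c.1)
  | .P _ => 0
  | .Q _ => 0

/-- The adjacencies, in one direction. -/
def R (nm : Fin (2 * M) → ℕ) (g : ZMod q) : Vx q M K → Vx q M K → Prop
  | .X r o c a, .X r' o' c' a' => (o = o' ∧ c = c' ∧
      ((r = 0 ∧ r' = 1 ∧ a' = a) ∨ (r = 1 ∧ r' = 2 ∧ a' = a) ∨ (r = 2 ∧ r' = 0 ∧ a' = a + 1))) ∨
      (r = 0 ∧ r' = 0 ∧ Nxt nm o o' ∧ c = c' ∧ a = a')
  | .T o a b, .X r o' c a' => r = 0 ∧ o = o' ∧
      ((c = 0 ∧ a' = a) ∨ (c = 1 ∧ a' = b) ∨ (c = 2 ∧ a' + a + b = g))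
  | .L r e c k i, .L r' e' c' k' i' => e = e' ∧ c = c' ∧ k = k' ∧
      ((r = 0 ∧ r' = 1 ∧ i' = i) ∨ (r = 1 ∧ r' = 2 ∧ i' = i) ∨ (r = 2 ∧ r' = 0 ∧ i' = i + 1))
  | .L r e c k _, .X r' o c' a => r = 0 ∧ r' = 0 ∧ o.1 = 2 * e.1 ∧ c = c' ∧ a = k
  | .W e c h, .L r e' c' k i => r = 0 ∧ e = e' ∧ c = c' ∧ i = h k
  | .W e c h, .X r o c' a => r = 0 ∧ o.1 = 2 * e.1 + 1 ∧ c = c' ∧ a = ∑ k, h k
  | .P j, .P j' => j'.1 = j.1 + 1
  | .P j, .Q j' => j'.1 = j.1 ∨ (j.1 = 0 ∧ j'.1 = K)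
  | .P j, .X r o c a => j.1 = code (.X r o c a : Vx q M K)
  | .P j, .T o a b => j.1 = code (.T o a b : Vx q M K)
  | .P j, .L r e c k i => j.1 = code (.L r e c k i : Vx q M K)
  | .P j, .W e c h => j.1 = code (.W e c h : Vx q M K)
  | _, _ => False

/-- Adjacency. -/
def Ad (nm : Fin (2 * M) → ℕ) (g : ZMod q) (u v : Vx q M K) : Prop := R nm g u v ∨ R nm g v u

theorem Ad.symm {nm : Fin (2 * M) → ℕ} {g : ZMod q} {u v : Vx q M K} (h : Ad nm g u v) :
    Ad nm g v u := Or.symm h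

theorem ad_comm {nm : Fin (2 * M) → ℕ} {g : ZMod q} {u v : Vx q M K} :
    Ad nm g u v ↔ Ad nm g v u := ⟨Ad.symm, Ad.symm⟩

theorem not_R_self (nm : Fin (2 * M) → ℕ) (g : ZMod q) (u : Vx q M K) : ¬ R nm g u u := by
  rcases u with ⟨r, o, c, a⟩ | ⟨o, a, b⟩ | ⟨r, e, c, k, i⟩ | ⟨e, c, h⟩ | j | j
  · rintro (⟨-, -, h | h | h⟩ | h)
    · rw [h.1] at h; exact absurd h.2.1 (by decide)
    · rw [h.1] at h; exact absurd h.2.1 (by decide)
    · rw [h.1] at h; exact absurd h.2.1 (by decide)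
    · exact absurd h.2.2.1.2.1 (lt_irrefl _)
  · exact id
  · rintro ⟨-, -, -, h | h | h⟩
    · rw [h.1] at h; exact absurd h.2.1 (by decide)
    · rw [h.1] at h; exact absurd h.2.1 (by decide)
    · rw [h.1] at h; exact absurd h.2.1 (by decide)
  · exact id
  · intro h
    have h' : j.1 = j.1 + 1 := h
    omega
  · exact id

/-! ## The maps -/

/-- The first copy of an edge. -/
def cp0 (e : Fin M) : Fin (2 * M) := ⟨2 * e.1, by omega⟩

/-- The second copy of an edge. -/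
def cp1 (e : Fin M) : Fin (2 * M) := ⟨2 * e.1 + 1, by omega⟩

/-- The map with shifts `s` and local shifts `f`. -/
def phi (s : Fin (2 * M) → Fin 3 → ZMod q) (f : Fin M → Fin 3 → ZMod q → ZMod q) :
    Vx q M K → Vx q M K
  | .X r o c a => .X r o c (a + s o c)
  | .T o a b => .T o (a + s o 0) (b + s o 1)
  | .L r e c k i => .L r e c (k + s (cp0 e) c) (i + f e c k)
  | .W e c h => .W e c (fun k => h (k - s (cp0 e) c) + f e c (k - s (cp0 e) c))
  | .P j => .P j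
  | .Q j => .Q j

theorem phi_comp (s s' : Fin (2 * M) → Fin 3 → ZMod q) (f f' : Fin M → Fin 3 → ZMod q → ZMod q)
    (v : Vx q M K) : phi s' f' (phi s f v) = phi (fun o c => s o c + s' o c)
      (fun e c k => f e c k + f' e c (k + s (cp0 e) c)) v := by
  rcases v with ⟨r, o, c, a⟩ | ⟨o, a, b⟩ | ⟨r, e, c, k, i⟩ | ⟨e, c, h⟩ | j | j
  · simp only [phi, add_assoc]
  · simp only [phi, add_assoc]
  · simp only [phi, add_assoc]
  · simp only [phi]
    congr 1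
    funext k
    have e1 : k - s' (cp0 e) c - s (cp0 e) c = k - (s (cp0 e) c + s' (cp0 e) c) := by ring
    have e2 : k - (s (cp0 e) c + s' (cp0 e) c) + s (cp0 e) c = k - s' (cp0 e) c := by ring
    rw [e1, e2, add_assoc]
  · rfl
  · rfl

theorem phi_zero (v : Vx q M K) : phi (fun _ _ => 0) (fun _ _ _ => 0) v = v := by
  rcases v with ⟨r, o, c, a⟩ | ⟨o, a, b⟩ | ⟨r, e, c, k, i⟩ | ⟨e, c, h⟩ | j | j <;>
    simp only [phi, add_zero, sub_zero]

/-- The map as an equivalence. -/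
def phiE (s : Fin (2 * M) → Fin 3 → ZMod q) (f : Fin M → Fin 3 → ZMod q → ZMod q) :
    Vx q M K ≃ Vx q M K where
  toFun := phi s f
  invFun := phi (fun o c => - s o c) (fun e c k => - f e c (k - s (cp0 e) c))
  left_inv v := by
    rw [phi_comp]
    have h1 : (fun o c => s o c + - s o c) = fun (_ : Fin (2 * M)) (_ : Fin 3) => (0 : ZMod q) := by
      funext o c; ring
    have h2 : (fun e c k => f e c k + - f e c (k + s (cp0 e) c - s (cp0 e) c)) =
        fun (_ : Fin M) (_ : Fin 3) (_ : ZMod q) => (0 : ZMod q) := by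
      funext e c k
      rw [add_sub_cancel_right]; ring
    rw [h1, h2, phi_zero]
  right_inv v := by
    rw [phi_comp]
    have h1 : (fun o c => - s o c + s o c) = fun (_ : Fin (2 * M)) (_ : Fin 3) => (0 : ZMod q) := by
      funext o c; ring
    have h2 : (fun e c k => - f e c (k - s (cp0 e) c) + f e c (k + - s (cp0 e) c)) =
        fun (_ : Fin M) (_ : Fin 3) (_ : ZMod q) => (0 : ZMod q) := by
      funext e c k
      rw [← sub_eq_add_neg]; ring
    rw [h1, h2, phi_zero]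

theorem phi_R {nm : Fin (2 * M) → ℕ} {g g' : ZMod q} {s : Fin (2 * M) → Fin 3 → ZMod q}
    {f : Fin M → Fin 3 → ZMod q → ZMod q} (h1 : ∀ o, s o 0 + s o 1 + s o 2 + g = g')
    (h2 : ∀ o o' c, Nxt nm o o' → s o c = s o' c)
    (h3 : ∀ e c, ∑ k, f e c k = s (cp1 e) c) (u v : Vx q M K) :
    R nm g u v ↔ R nm g' (phi s f u) (phi s f v) := by
  rcases u with ⟨r, o, c, a⟩ | ⟨o, a, b⟩ | ⟨r, e, c, k, i⟩ | ⟨e, c, h⟩ | j | j <;>
    rcases v with ⟨r', o', c', a'⟩ | ⟨o', a', b'⟩ | ⟨r', e', c', k', i'⟩ | ⟨e', c', h'⟩ | j' | j' <;>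
    try exact Iff.rfl
  · simp only [R, phi]
    constructor
    · rintro (⟨rfl, rfl, h | h | h⟩ | ⟨rfl, rfl, h, rfl, rfl⟩)
      · exact Or.inl ⟨rfl, rfl, Or.inl ⟨h.1, h.2.1, by rw [h.2.2]⟩⟩
      · exact Or.inl ⟨rfl, rfl, Or.inr (Or.inl ⟨h.1, h.2.1, by rw [h.2.2]⟩)⟩
      · exact Or.inl ⟨rfl, rfl, Or.inr (Or.inr ⟨h.1, h.2.1, by rw [h.2.2]; ring⟩)⟩
      · exact Or.inr ⟨rfl, rfl, h, rfl, by rw [h2 _ _ _ h]⟩
    · rintro (⟨rfl, rfl, h | h | h⟩ | ⟨rfl, rfl, h, rfl, h'⟩)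
      · exact Or.inl ⟨rfl, rfl, Or.inl ⟨h.1, h.2.1, add_right_cancel h.2.2⟩⟩
      · exact Or.inl ⟨rfl, rfl, Or.inr (Or.inl ⟨h.1, h.2.1, add_right_cancel h.2.2⟩)⟩
      · refine Or.inl ⟨rfl, rfl, Or.inr (Or.inr ⟨h.1, h.2.1, ?_⟩)⟩
        have := h.2.2
        apply add_right_cancel (b := s o c)
        rw [this]; ring
      · refine Or.inr ⟨rfl, rfl, h, rfl, ?_⟩
        rw [h2 _ _ _ h] at h'
        exact add_right_cancel h'
  · simp only [R, phi]
    constructor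
    · rintro ⟨rfl, rfl, h | h | h⟩
      · obtain ⟨rfl, rfl⟩ := h
        exact ⟨rfl, rfl, Or.inl ⟨rfl, rfl⟩⟩
      · obtain ⟨rfl, rfl⟩ := h
        exact ⟨rfl, rfl, Or.inr (Or.inl ⟨rfl, rfl⟩)⟩
      · obtain ⟨rfl, rfl⟩ := h
        refine ⟨rfl, rfl, Or.inr (Or.inr ⟨rfl, ?_⟩)⟩
        rw [← h1 o]; ring
    · rintro ⟨rfl, rfl, h | h | h⟩
      · obtain ⟨rfl, h⟩ := h
        exact ⟨rfl, rfl, Or.inl ⟨rfl, add_right_cancel h⟩⟩
      · obtain ⟨rfl, h⟩ := h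
        exact ⟨rfl, rfl, Or.inr (Or.inl ⟨rfl, add_right_cancel h⟩)⟩
      · obtain ⟨rfl, h⟩ := h
        refine ⟨rfl, rfl, Or.inr (Or.inr ⟨rfl, ?_⟩)⟩
        rw [← h1 o] at h
        apply add_left_cancel (a := s o 0 + s o 1 + s o 2)
        rw [← h]; ring
  · simp only [R, phi]
    constructor
    · rintro ⟨rfl, rfl, ho, rfl, rfl⟩
      exact ⟨rfl, rfl, ho, rfl, by
        have : cp0 e = o' := Fin.ext (by simp only [cp0]; omega)
        rw [this]⟩
    · rintro ⟨rfl, rfl, h, rfl, h'⟩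
      refine ⟨rfl, rfl, h, rfl, ?_⟩
      have : cp0 e = o' := Fin.ext (by simp only [cp0]; omega)
      rw [this] at h'
      exact add_right_cancel h'
  · simp only [R, phi]
    constructor
    · rintro ⟨rfl, rfl, rfl, h | h | h⟩
      · exact ⟨rfl, rfl, rfl, Or.inl ⟨h.1, h.2.1, by rw [h.2.2]⟩⟩
      · exact ⟨rfl, rfl, rfl, Or.inr (Or.inl ⟨h.1, h.2.1, by rw [h.2.2]⟩)⟩
      · exact ⟨rfl, rfl, rfl, Or.inr (Or.inr ⟨h.1, h.2.1, by rw [h.2.2]; ring⟩)⟩
    · rintro ⟨rfl, rfl, hk, h | h | h⟩ <;> obtain rfl := add_right_cancel hk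
      · exact ⟨rfl, rfl, rfl, Or.inl ⟨h.1, h.2.1, add_right_cancel h.2.2⟩⟩
      · exact ⟨rfl, rfl, rfl, Or.inr (Or.inl ⟨h.1, h.2.1, add_right_cancel h.2.2⟩)⟩
      · refine ⟨rfl, rfl, rfl, Or.inr (Or.inr ⟨h.1, h.2.1, ?_⟩)⟩
        have := h.2.2
        apply add_right_cancel (b := f e c k)
        rw [this]; ring
  · simp only [R, phi]
    have key : ∑ k, (h (k - s (cp0 e) c) + f e c (k - s (cp0 e) c)) =
        ∑ k, h k + s (cp1 e) c := by
      rw [Finset.sum_add_distrib, ← h3 e c]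
      congr 1
      · exact Fintype.sum_equiv (Equiv.subRight (s (cp0 e) c)) _ _ fun _ => rfl
      · exact Fintype.sum_equiv (Equiv.subRight (s (cp0 e) c)) _ _ fun _ => rfl
    constructor
    · rintro ⟨rfl, ho, rfl, rfl⟩
      refine ⟨rfl, ho, rfl, ?_⟩
      have : cp1 e = o' := Fin.ext (by simp only [cp1]; omega)
      rw [key, this]
    · rintro ⟨rfl, ho, rfl, h'⟩
      refine ⟨rfl, ho, rfl, ?_⟩
      have : cp1 e = o' := Fin.ext (by simp only [cp1]; omega)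
      rw [key, this] at h'
      exact add_right_cancel h'
  · simp only [R, phi]
    constructor
    · rintro ⟨rfl, rfl, rfl, rfl⟩
      exact ⟨rfl, rfl, rfl, by rw [add_sub_cancel_right]⟩
    · rintro ⟨rfl, rfl, rfl, h'⟩
      rw [add_sub_cancel_right] at h'
      exact ⟨rfl, rfl, rfl, add_right_cancel h'⟩

theorem phi_Ad {nm : Fin (2 * M) → ℕ} {g g' : ZMod q} {s : Fin (2 * M) → Fin 3 → ZMod q}
    {f : Fin M → Fin 3 → ZMod q → ZMod q} (h1 : ∀ o, s o 0 + s o 1 + s o 2 + g = g')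
    (h2 : ∀ o o' c, Nxt nm o o' → s o c = s o' c)
    (h3 : ∀ e c, ∑ k, f e c k = s (cp1 e) c) (u v : Vx q M K) :
    Ad nm g u v ↔ Ad nm g' (phi s f u) (phi s f v) :=
  or_congr (phi_R h1 h2 h3 u v) (phi_R h1 h2 h3 v u)

theorem phi_iterate {s : Fin (2 * M) → Fin 3 → ZMod q} {f : Fin M → Fin 3 → ZMod q → ZMod q}
    (h : ∀ e c, s (cp0 e) c = 0 ∨ ∀ k, f e c k = 0) (n : ℕ) (v : Vx q M K) :
    (phi s f)^[n] v = phi (fun o c => (n : ZMod q) * s o c) (fun e c k => (n : ZMod q) * f e c k) v := by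
  induction n generalizing v with
  | zero =>
    simp only [Function.iterate_zero, id, Nat.cast_zero, zero_mul]
    exact (phi_zero v).symm
  | succ n ih =>
    rw [Function.iterate_succ_apply, ih, phi_comp]
    congr 1
    · funext o c
      push_cast; ring
    · funext e c k
      rcases h e c with h' | h'
      · rw [h', add_zero]; push_cast; ring
      · rw [h', h']; simp

end Pool.Agent.R892.Ord
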