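import Pool.Agent.R892.Ord.Main
import Pool.Agent.H671R2.GraphEnc

/-!
# Isomorphisms of bounded order: labels of the vertices
-/

set_option autoImplicit false
set_option linter.unusedSectionVars false
set_option linter.unusedSimpArgs false

namespace Pool.Agent.R892.Ord

/-- Labels: kind, layer, index, colour, values. -/
abbrev Lab : Type := ℕ × ℕ × ℕ × ℕ × List ℕ

variable {q M K : ℕ} [NeZero q]

/-- The label of a vertex. -/
def lab : Vx q M K → Lab
  | .X r o c a => (0, r.1, o.1, c.1, [a.val])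
  | .T o a b => (1, 0, o.1, 0, [a.val, b.val])
  | .L r e c k i => (2, r.1, e.1, c.1, [k.val, i.val])
  | .W e c h => (3, 0, e.1, c.1, (List.range q).map fun (k : ℕ) => (h (k : ZMod q)).val)
  | .P j => (4, 0, j.1, 0, [])
  | .Q j => (5, 0, j.1, 0, [])

theorem funList_inj {h h' : ZMod q → ZMod q} (e : ((List.range q).map fun (k : ℕ) => (h (k : ZMod q)).val) =
    (List.range q).map fun (k : ℕ) => (h' (k : ZMod q)).val) : h = h' := by
  funext x
  have h1 : ∀ k ∈ List.range q, (h k).val = (h' k).val := by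
    intro k hk
    exact List.map_inj_left.1 e k hk
  have h2 := h1 x.val (List.mem_range.2 (ZMod.val_lt x))
  rw [ZMod.natCast_zmod_val] at h2
  exact ZMod.val_injective q h2

theorem lab_injective : Function.Injective (lab (q := q) (M := M) (K := K)) := by
  intro u v h
  rcases u with ⟨r, o, c, a⟩ | ⟨o, a, b⟩ | ⟨r, e, c, k, i⟩ | ⟨e, c, w⟩ | j | j <;>
    rcases v with ⟨r', o', c', a'⟩ | ⟨o', a', b'⟩ | ⟨r', e', c', k', i'⟩ | ⟨e', c', w'⟩ | j' | j' <;>
    simp only [lab, Prod.mk.injEq, OfNat.ofNat_ne_zero, OfNat.zero_ne_ofNat, OfNat.one_ne_ofNat,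
      OfNat.ofNat_ne_one, zero_ne_one, one_ne_zero, Nat.reduceEqDiff, false_and, true_and,
      List.cons.injEq, and_true] at h
  · obtain ⟨h1, h2, h3, h4⟩ := h
    rw [Fin.ext h1, Fin.ext h2, Fin.ext h3, ZMod.val_injective q h4]
  · obtain ⟨h1, h2, h3⟩ := h
    rw [Fin.ext h1, ZMod.val_injective q h2, ZMod.val_injective q h3]
  · obtain ⟨h1, h2, h3, h4, h5⟩ := h
    rw [Fin.ext h1, Fin.ext h2, Fin.ext h3, ZMod.val_injective q h4, ZMod.val_injective q h5]
  · obtain ⟨h1, h2, h3⟩ := h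
    rw [Fin.ext h1, Fin.ext h2, funList_inj h3]
  · rw [Fin.ext h]
  · rw [Fin.ext h]

/-- An entry of the values. -/
def vlu (a : Lab) (i : ℕ) : ℕ := a.2.2.2.2.getD i 0

/-- The code of a label. -/
def codeL (b : Lab) : ℕ :=
  32 * b.2.2.1 + (bif decide (b.1 = 0) then 3 * b.2.2.2.1 + b.2.1 else
    bif decide (b.1 = 1) then 9 else bif decide (b.1 = 2) then 10 + 4 * b.2.2.2.1 + b.2.1 else
      13 + 4 * b.2.2.2.1)

/-- Adjacency of kinds `0` and `0`. -/
def rXX (q : ℕ) (S : List (ℕ × ℕ)) (a b : Lab) : Bool :=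
  (decide (a.2.2.1 = b.2.2.1) && (decide (a.2.2.2.1 = b.2.2.2.1) &&
      ((decide (a.2.1 = 0) && (decide (b.2.1 = 1) && decide (vlu b 0 = vlu a 0))) ||
      ((decide (a.2.1 = 1) && (decide (b.2.1 = 2) && decide (vlu b 0 = vlu a 0))) ||
      (decide (a.2.1 = 2) && (decide (b.2.1 = 0) && decide (vlu b 0 = (vlu a 0 + 1) % q))))))) ||
    (decide (a.2.1 = 0) && (decide (b.2.1 = 0) && (decide ((a.2.2.1, b.2.2.1) ∈ S) &&
      (decide (a.2.2.2.1 = b.2.2.2.1) && decide (vlu a 0 = vlu b 0)))))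

/-- Adjacency of kinds `1` and `0`. -/
def rTX (q g : ℕ) (a b : Lab) : Bool :=
  decide (b.2.1 = 0) && (decide (a.2.2.1 = b.2.2.1) &&
      ((decide (b.2.2.2.1 = 0) && decide (vlu b 0 = vlu a 0)) ||
      ((decide (b.2.2.2.1 = 1) && decide (vlu b 0 = vlu a 1)) ||
      (decide (b.2.2.2.1 = 2) && decide ((vlu b 0 + vlu a 0 + vlu a 1) % q = g % q)))))

/-- Adjacency of kinds `2` and `2`. -/
def rLL (q : ℕ) (a b : Lab) : Bool :=
  decide (a.2.2.1 = b.2.2.1) && (decide (a.2.2.2.1 = b.2.2.2.1) &&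
      (decide (vlu a 0 = vlu b 0) &&
      ((decide (a.2.1 = 0) && (decide (b.2.1 = 1) && decide (vlu b 1 = vlu a 1))) ||
      ((decide (a.2.1 = 1) && (decide (b.2.1 = 2) && decide (vlu b 1 = vlu a 1))) ||
      (decide (a.2.1 = 2) && (decide (b.2.1 = 0) && decide (vlu b 1 = (vlu a 1 + 1) % q)))))))

/-- Adjacency of kinds `2` and `0`. -/
def rLX (a b : Lab) : Bool :=
  decide (a.2.1 = 0) && (decide (b.2.1 = 0) && (decide (b.2.2.1 = 2 * a.2.2.1) &&
      (decide (a.2.2.2.1 = b.2.2.2.1) && decide (vlu b 0 = vlu a 0))))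

/-- Adjacency of kinds `3` and `2`. -/
def rWL (a b : Lab) : Bool :=
  decide (b.2.1 = 0) && (decide (a.2.2.1 = b.2.2.1) && (decide (a.2.2.2.1 = b.2.2.2.1) &&
      decide (vlu b 1 = vlu a (vlu b 0))))

/-- Adjacency of kinds `3` and `0`. -/
def rWX (q : ℕ) (a b : Lab) : Bool :=
  decide (b.2.1 = 0) && (decide (b.2.2.1 = 2 * a.2.2.1 + 1) &&
      (decide (a.2.2.2.1 = b.2.2.2.1) && decide (vlu b 0 = a.2.2.2.2.sum % q)))

/-- The adjacencies of labels, in one direction. -/
def rl (q K : ℕ) (S : List (ℕ × ℕ)) (g : ℕ) (a b : Lab) : Bool :=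
  bif decide (a.1 = 0) && decide (b.1 = 0) then rXX q S a b
  else bif decide (a.1 = 1) && decide (b.1 = 0) then rTX q g a b
  else bif decide (a.1 = 2) && decide (b.1 = 2) then rLL q a b
  else bif decide (a.1 = 2) && decide (b.1 = 0) then rLX a b
  else bif decide (a.1 = 3) && decide (b.1 = 2) then rWL a b
  else bif decide (a.1 = 3) && decide (b.1 = 0) then rWX q a b
  else bif decide (a.1 = 4) && decide (b.1 = 4) then decide (b.2.2.1 = a.2.2.1 + 1)
  else bif decide (a.1 = 4) && decide (b.1 = 5) then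
    decide (b.2.2.1 = a.2.2.1) || (decide (a.2.2.1 = 0) && decide (b.2.2.1 = K))
  else bif decide (a.1 = 4) && decide (b.1 < 4) then decide (a.2.2.1 = codeL b)
  else false

theorem val_iff {a : ZMod q} {n : ℕ} : a.val = n % q ↔ a = (n : ZMod q) := by
  rw [← ZMod.val_natCast]
  exact ⟨fun h => ZMod.val_injective q h, fun h => by rw [h]⟩

theorem val_succ_iff {a b : ZMod q} : b.val = (a.val + 1) % q ↔ b = a + 1 := by
  rw [val_iff]
  push_cast
  rw [ZMod.natCast_zmod_val]

theorem val_inj {a b : ZMod q} : a.val = b.val ↔ a = b :=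
  ⟨fun h => ZMod.val_injective q h, fun h => by rw [h]⟩

theorem val_sum_iff {a b c : ZMod q} {g : ℕ} :
    (a.val + b.val + c.val) % q = g % q ↔ a + b + c = (g : ZMod q) := by
  rw [← ZMod.natCast_eq_natCast_iff']
  push_cast
  rw [ZMod.natCast_zmod_val, ZMod.natCast_zmod_val, ZMod.natCast_zmod_val]

theorem getD_fun (h : ZMod q → ZMod q) (k : ZMod q) :
    ((List.range q).map fun (k : ℕ) => (h (k : ZMod q)).val).getD k.val 0 = (h k).val := by
  have h1 : k.val < ((List.range q).map fun (k : ℕ) => (h (k : ZMod q)).val).length := by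
    rw [List.length_map, List.length_range]
    exact ZMod.val_lt k
  rw [List.getD_eq_getElem _ _ h1, List.getElem_map, List.getElem_range, ZMod.natCast_zmod_val]

theorem sum_fun (h : ZMod q → ZMod q) :
    ((((List.range q).map fun (k : ℕ) => (h (k : ZMod q)).val).sum : ℕ) : ZMod q) = ∑ k, h k := by
  rw [← sum_range_cast h, Nat.cast_list_sum, List.map_map, Finset.sum_range,
    ← List.sum_ofFn, List.ofFn_eq_map]
  congr 1
  rw [← List.map_coe_finRange_eq_range, List.map_map]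
  apply List.map_congr_left
  intro a _
  simp

theorem rl_lab {nm : Fin (2 * M) → ℕ} {S : List (ℕ × ℕ)}
    (hS : ∀ o o' : Fin (2 * M), (o.1, o'.1) ∈ S ↔ Nxt nm o o') (g : ℕ) (u v : Vx q M K) :
    rl q K S g (lab u) (lab v) = true ↔ R nm (g : ZMod q) u v := by
  rcases u with ⟨r, o, c, a⟩ | ⟨o, a, b⟩ | ⟨r, e, c, k, i⟩ | ⟨e, c, w⟩ | j | j <;>
    rcases v with ⟨r', o', c', a'⟩ | ⟨o', a', b'⟩ | ⟨r', e', c', k', i'⟩ | ⟨e', c', w'⟩ | j' | j'
  · show rXX q S _ _ = true ↔ _
    simp only [rXX, Bool.or_eq_true, Bool.and_eq_true, decide_eq_true_eq]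
    simp only [lab, vlu, List.getD_cons_zero, Bool.or_eq_true, Bool.and_eq_true,
      decide_eq_true_eq, R, hS, val_succ_iff, val_inj, Fin.ext_iff, Fin.val_zero, Fin.val_one,
      Fin.val_two]
  · exact ⟨fun h => Bool.noConfusion h, fun h => h.elim⟩
  · exact ⟨fun h => Bool.noConfusion h, fun h => h.elim⟩
  · exact ⟨fun h => Bool.noConfusion h, fun h => h.elim⟩
  · exact ⟨fun h => Bool.noConfusion h, fun h => h.elim⟩
  · exact ⟨fun h => Bool.noConfusion h, fun h => h.elim⟩
  · show rTX q g _ _ = true ↔ _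
    simp only [rTX, Bool.or_eq_true, Bool.and_eq_true, decide_eq_true_eq]
    simp only [lab, vlu, List.getD_cons_zero, List.getD_cons_succ, Bool.or_eq_true,
      Bool.and_eq_true, decide_eq_true_eq, R, val_sum_iff, val_inj, Fin.ext_iff, Fin.val_zero,
      Fin.val_one, Fin.val_two]
  · exact ⟨fun h => Bool.noConfusion h, fun h => h.elim⟩
  · exact ⟨fun h => Bool.noConfusion h, fun h => h.elim⟩
  · exact ⟨fun h => Bool.noConfusion h, fun h => h.elim⟩
  · exact ⟨fun h => Bool.noConfusion h, fun h => h.elim⟩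
  · exact ⟨fun h => Bool.noConfusion h, fun h => h.elim⟩
  · show rLX _ _ = true ↔ _
    simp only [rLX, Bool.or_eq_true, Bool.and_eq_true, decide_eq_true_eq]
    simp only [lab, vlu, List.getD_cons_zero, Bool.and_eq_true,
      decide_eq_true_eq, R, val_inj, Fin.ext_iff, Fin.val_zero]
  · exact ⟨fun h => Bool.noConfusion h, fun h => h.elim⟩
  · show rLL q _ _ = true ↔ _
    simp only [rLL, Bool.or_eq_true, Bool.and_eq_true, decide_eq_true_eq]
    simp only [lab, vlu, List.getD_cons_zero, List.getD_cons_succ, Bool.or_eq_true,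
      Bool.and_eq_true, decide_eq_true_eq, R, val_succ_iff, val_inj, Fin.ext_iff, Fin.val_zero,
      Fin.val_one, Fin.val_two]
  · exact ⟨fun h => Bool.noConfusion h, fun h => h.elim⟩
  · exact ⟨fun h => Bool.noConfusion h, fun h => h.elim⟩
  · exact ⟨fun h => Bool.noConfusion h, fun h => h.elim⟩
  · show rWX q _ _ = true ↔ _
    simp only [rWX, Bool.or_eq_true, Bool.and_eq_true, decide_eq_true_eq]
    simp only [lab, vlu, List.getD_cons_zero, Bool.and_eq_true,
      decide_eq_true_eq, R, val_iff, sum_fun, Fin.ext_iff, Fin.val_zero]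
  · exact ⟨fun h => Bool.noConfusion h, fun h => h.elim⟩
  · show rWL _ _ = true ↔ _
    simp only [rWL, Bool.or_eq_true, Bool.and_eq_true, decide_eq_true_eq]
    simp only [lab, vlu, List.getD_cons_zero, List.getD_cons_succ, Bool.and_eq_true,
      decide_eq_true_eq, R, getD_fun, val_inj, Fin.ext_iff, Fin.val_zero]
  · exact ⟨fun h => Bool.noConfusion h, fun h => h.elim⟩
  · exact ⟨fun h => Bool.noConfusion h, fun h => h.elim⟩
  · exact ⟨fun h => Bool.noConfusion h, fun h => h.elim⟩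
  · exact decide_eq_true_iff
  · exact decide_eq_true_iff
  · show decide (j.1 = codeL _) = true ↔ _
    rw [decide_eq_true_iff]
    rfl
  · exact decide_eq_true_iff
  · exact decide_eq_true_iff
  · show (decide (j'.1 = j.1) || (decide (j.1 = 0) && decide (j'.1 = K))) = true ↔ _
    simp only [Bool.or_eq_true, Bool.and_eq_true, decide_eq_true_eq, R]
  all_goals exact ⟨fun h => Bool.noConfusion h, fun h => h.elim⟩

/-- Adjacency of labels. -/
def ad (q K : ℕ) (S : List (ℕ × ℕ)) (g : ℕ) (a b : Lab) : Bool :=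
  !(decide (a = b)) && (rl q K S g a b || rl q K S g b a)

theorem ad_symm (q K : ℕ) (S : List (ℕ × ℕ)) (g : ℕ) (a b : Lab) :
    ad q K S g a b = ad q K S g b a := by
  unfold ad
  rw [Bool.or_comm, decide_eq_decide.2 (eq_comm (a := a) (b := b))]

theorem ad_irrefl (q K : ℕ) (S : List (ℕ × ℕ)) (g : ℕ) (a : Lab) : ad q K S g a a = false := by
  unfold ad
  rw [decide_eq_true rfl]
  rfl

theorem ad_lab {nm : Fin (2 * M) → ℕ} {S : List (ℕ × ℕ)}
    (hS : ∀ o o' : Fin (2 * M), (o.1, o'.1) ∈ S ↔ Nxt nm o o') (g : ℕ) (u v : Vx q M K) :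
    ad q K S g (lab u) (lab v) = true ↔ Ad nm (g : ZMod q) u v := by
  unfold ad Ad
  rw [Bool.and_eq_true, Bool.or_eq_true, rl_lab hS, rl_lab hS]
  constructor
  · exact fun h => h.2
  · intro h
    refine ⟨?_, h⟩
    have hne : u ≠ v := by
      rintro rfl
      exact not_R_self nm _ u (h.elim id id)
    have : lab u ≠ lab v := fun h => hne (lab_injective h)
    rw [decide_eq_false this]
    rfl

end Pool.Agent.R892.Ord
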