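import Pool.Agent.R892.Ord.Struct

/-!
# Isomorphisms of bounded order: the main equivalence
-/

set_option autoImplicit false
set_option linter.unusedSectionVars false

namespace Pool.Agent.R892.Ord

/-- `q` is the exact power of a prime in `m`. -/
def Good (q m : ℕ) : Prop :=
  ∃ p k r : ℕ, p.Prime ∧ k ≠ 0 ∧ q = p ^ k ∧ m = q * r ∧ Nat.Coprime r p

theorem exists_good {m : ℕ} (hm : 2 ≤ m) : ∃ q, Good q m ∧ 0 < q := by
  have hp := Nat.minFac_prime (n := m) (by omega)
  have hd := Nat.minFac_dvd m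
  refine ⟨m.minFac ^ m.factorization m.minFac, ⟨m.minFac, m.factorization m.minFac,
    m / m.minFac ^ m.factorization m.minFac, hp, ?_, rfl, ?_, ?_⟩, ?_⟩
  · have := hp.factorization_pos_of_dvd (by omega : m ≠ 0) hd
    omega
  · exact (Nat.mul_div_cancel' (Nat.ordProj_dvd m _)).symm
  · exact (Nat.coprime_ordCompl hp (by omega)).symm
  · exact pow_pos hp.pos _

variable {q m : ℕ}

theorem Good.cast (h : Good q m) : (m : ZMod q) = 0 := by
  obtain ⟨p, k, r, -, -, -, rfl, -⟩ := h
  simp

theorem isUnit_cast {p k : ℕ} (_ : k ≠ 0) (a : ℕ) (h : Nat.Coprime a p) :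
    IsUnit (a : ZMod (p ^ k)) :=
  (ZMod.isUnit_iff_coprime a (p ^ k)).2 (Nat.Coprime.pow_right k h)

theorem Good.unit_of_sum [NeZero q] (h : Good q m) {a b c : ZMod q} (hs : a + b + c = 1) :
    IsUnit a ∨ IsUnit b ∨ IsUnit c := by
  obtain ⟨p, k, r, hp, hk, rfl, -, -⟩ := h
  by_contra hn
  push Not at hn
  have key : ∀ x : ZMod (p ^ k), ¬ IsUnit x → p ∣ x.val := by
    intro x hx
    by_contra hd
    apply hx
    have := isUnit_cast hk x.val ((Nat.Prime.coprime_iff_not_dvd hp).2 hd).symm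
    rwa [ZMod.natCast_zmod_val] at this
  have h1 := key a hn.1
  have h2 := key b hn.2.1
  have h3 := key c hn.2.2
  have h4 : p ∣ a.val + b.val + c.val := dvd_add (dvd_add h1 h2) h3
  have h5 : ((a.val + b.val + c.val : ℕ) : ZMod (p ^ k)) = (1 : ℕ) := by
    push_cast
    rw [ZMod.natCast_zmod_val, ZMod.natCast_zmod_val, ZMod.natCast_zmod_val, hs]
  rw [ZMod.natCast_eq_natCast_iff] at h5
  have h6 : a.val + b.val + c.val ≡ 1 [MOD p] := h5.of_dvd (dvd_pow_self p hk)
  have h7 : 1 ≡ 0 [MOD p] := h6.symm.trans ((Nat.modEq_zero_iff_dvd).2 h4)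
  exact hp.one_lt.ne' (Nat.dvd_one.1 ((Nat.modEq_zero_iff_dvd).1 h7))

theorem Good.one_lt (h : Good q m) : 1 < q := by
  obtain ⟨p, k, r, hp, hk, rfl, -, -⟩ := h
  exact Nat.one_lt_pow hk hp.one_lt

theorem sum_range_cast [NeZero q] (F : ZMod q → ZMod q) :
    ∑ l ∈ Finset.range q, F (l : ZMod q) = ∑ x, F x := by
  refine Finset.sum_bij (fun l _ => (l : ZMod q)) (fun _ _ => Finset.mem_univ _) ?_ ?_
    (fun _ _ => rfl)
  · intro a ha b hb hab
    rw [ZMod.natCast_eq_natCast_iff'] at hab
    rwa [Nat.mod_eq_of_lt (Finset.mem_range.1 ha), Nat.mod_eq_of_lt (Finset.mem_range.1 hb)] at hab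
  · intro x _
    exact ⟨x.val, Finset.mem_range.2 (ZMod.val_lt x), ZMod.natCast_zmod_val x⟩

theorem sum_range_mul' [NeZero q] (F : ZMod q → ZMod q) (r : ℕ) :
    ∑ l ∈ Finset.range (q * r), F (l : ZMod q) = (r : ZMod q) * ∑ x, F x := by
  induction r with
  | zero => simp
  | succ r ih =>
    rw [Nat.mul_succ, Finset.sum_range_add, ih]
    have : ∑ x ∈ Finset.range q, F ((q * r + x : ℕ) : ZMod q) = ∑ x, F x := by
      rw [← sum_range_cast F]
      refine Finset.sum_congr rfl fun x _ => ?_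
      congr 1
      push_cast
      simp
    rw [this]
    push_cast
    ring

theorem Good.sum_eq_zero [NeZero q] (h : Good q m) {f : ZMod q → ZMod q} {k s : ZMod q}
    (hs : IsUnit s) (h0 : ∑ l ∈ Finset.range m, f (k + l * s) = 0) : ∑ x, f x = 0 := by
  obtain ⟨p, n, r, hp, hn, rfl, rfl, hr⟩ := h
  rw [sum_range_mul' (fun x => f (k + x * s))] at h0
  have h1 := (isUnit_cast hn r hr)
  rw [h1.mul_right_eq_zero] at h0
  rw [← h0]
  obtain ⟨u, rfl⟩ := hs
  exact (Fintype.sum_equiv ((Units.mulRight u).trans (Equiv.addLeft k)) _ _ fun _ => rfl).symm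

variable {M K : ℕ} [NeZero q]

theorem iterate_L {π : Vx q M K ≃ Vx q M K} {s : Fin (2 * M) → Fin 3 → ZMod q}
    {f : Fin M → Fin 3 → ZMod q → ZMod q}
    (h : ∀ e c k i, π (.L 0 e c k i) = .L 0 e c (k + s (cp0 e) c) (i + f e c k))
    (e c k i) (n : ℕ) : π^[n] (.L 0 e c k i) = .L 0 e c (k + n * s (cp0 e) c)
      (i + ∑ l ∈ Finset.range n, f e c (k + l * s (cp0 e) c)) := by
  induction n with
  | zero => simp
  | succ n ih =>
    rw [Function.iterate_succ_apply', ih, h, Finset.sum_range_succ]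
    congr 1
    · push_cast; ring
    · ring

theorem nxt_chain {nm : Fin (2 * M) → ℕ} {α : Type} {F : Fin (2 * M) → α}
    (h : ∀ o o', Nxt nm o o' → F o = F o') : ∀ o o', nm o = nm o' → F o = F o' := by
  have key : ∀ n : ℕ, ∀ o o' : Fin (2 * M), o'.1 - o.1 = n → o < o' → nm o = nm o' → F o = F o' := by
    intro n
    induction n using Nat.strong_induction_on with
    | _ n ih =>
      intro o o' hn hlt hnm
      by_cases hk : ∀ k, o < k → k < o' → nm k ≠ nm o
      · exact h o o' ⟨hnm, hlt, hk⟩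
      · push Not at hk
        obtain ⟨k, h1, h2, h3⟩ := hk
        have e1 := ih (k.1 - o.1) (by omega) o k rfl h1 h3.symm
        have e2 := ih (o'.1 - k.1) (by omega) k o' rfl h2 (h3.trans hnm)
        exact e1.trans e2
  intro o o' hnm
  rcases lt_trichotomy o o' with hlt | rfl | hlt
  · exact key _ o o' rfl hlt hnm
  · rfl
  · exact (key _ o' o rfl hlt hnm.symm).symm

/-- The two graphs are isomorphic. -/
theorem iso_exists (nm : Fin (2 * M) → ℕ) : ∃ π : Vx q M K ≃ Vx q M K,
    ∀ u v, Ad nm 0 u v ↔ Ad nm 1 (π u) (π v) := by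
  refine ⟨phiE (fun _ c => if c = 0 then 1 else 0)
    (fun _ c k => if k = 0 then (if c = 0 then 1 else 0) else 0), fun u v => ?_⟩
  refine phi_Ad ?_ ?_ ?_ u v
  · intro o
    simp
  · intro o o' c _
    rfl
  · intro e c
    simp

/-- **The main equivalence.** -/
theorem main_iff (hK : K = 64 * M + 2) (hq : Good q m) (nm : Fin (2 * M) → ℕ) :
    (∃ π : Vx q M K ≃ Vx q M K, (∀ u v, Ad nm 0 u v ↔ Ad nm 1 (π u) (π v)) ∧
      ∀ v, π^[m] v = v) ↔ ∃ col : ℕ → Fin 3, ∀ e : Fin M, col (nm (cp0 e)) ≠ col (nm (cp1 e)) := by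
  constructor
  · rintro ⟨π, hπ, hm⟩
    obtain ⟨s, f, h1, h2, h3, h4⟩ := struct hK hπ
    have h5 : ∀ o, ∃ c, IsUnit (s o c) := by
      intro o
      have := h1 o
      rw [add_zero] at this
      rcases hq.unit_of_sum this with h | h | h
      · exact ⟨0, h⟩
      · exact ⟨1, h⟩
      · exact ⟨2, h⟩
    have h6 : ∀ o o', nm o = nm o' → s o = s o' :=
      nxt_chain fun o o' h => funext fun c => h2 o o' c h
    have h7 : ∀ e c, IsUnit (s (cp0 e) c) → s (cp1 e) c = 0 := by
      intro e c hu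
      have h8 := hm (.L 0 e c 0 0)
      rw [iterate_L h4] at h8
      simp only [Vx.L.injEq, true_and] at h8
      have h9 := h8.2
      rw [zero_add] at h9
      rw [← h3, hq.sum_eq_zero hu h9]
    classical
    have h8 : ∀ n : ℕ, ∃ c : Fin 3, ∀ o, nm o = n → IsUnit (s o c) := by
      intro n
      by_cases hn : ∃ o, nm o = n
      · obtain ⟨o, ho⟩ := hn
        obtain ⟨c, hc⟩ := h5 o
        refine ⟨c, fun o' ho' => ?_⟩
        rw [h6 o' o (ho'.trans ho.symm)]
        exact hc
      · exact ⟨0, fun o ho => absurd ⟨o, ho⟩ hn⟩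
    choose col hcol using h8
    refine ⟨col, fun e he => ?_⟩
    have e1 := hcol _ (cp0 e) rfl
    have e2 := hcol _ (cp1 e) rfl
    have e3 := h7 _ _ e1
    rw [he] at e3
    rw [e3] at e2
    have : Fact (1 < q) := ⟨hq.one_lt⟩
    exact not_isUnit_zero e2
  · rintro ⟨col, hcol⟩
    have hpr : ∀ e c, (if col (nm (cp0 e)) = c then (1 : ZMod q) else 0) = 0 ∨
        ∀ k : ZMod q, (if k = 0 then (if col (nm (cp1 e)) = c then (1 : ZMod q) else 0) else 0) = 0 := by
      intro e c
      by_cases h : col (nm (cp0 e)) = c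
      · right
        intro k
        have : ¬ col (nm (cp1 e)) = c := fun h' => hcol e (h.trans h'.symm)
        rw [if_neg this]
        simp
      · left
        rw [if_neg h]
    refine ⟨phiE (fun o c => if col (nm o) = c then 1 else 0)
      (fun e c k => if k = 0 then (if col (nm (cp1 e)) = c then 1 else 0) else 0),
      fun u v => phi_Ad ?_ ?_ ?_ u v, fun v => ?_⟩
    · intro o
      beta_reduce
      generalize col (nm o) = x
      fin_cases x <;> simp
    · intro o o' c h
      beta_reduce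
      rw [h.1]
    · intro e c
      simp
    · have h1 := phi_iterate (K := K) (s := fun o c => if col (nm o) = c then (1 : ZMod q) else 0)
        (f := fun (e : Fin M) c (k : ZMod q) =>
          if k = 0 then (if col (nm (cp1 e)) = c then (1 : ZMod q) else 0) else 0) hpr m v
      have h2 : (phiE (fun o c => if col (nm o) = c then (1 : ZMod q) else 0)
        (fun (e : Fin M) c (k : ZMod q) =>
          if k = 0 then (if col (nm (cp1 e)) = c then (1 : ZMod q) else 0) else 0) :
            Vx q M K ≃ Vx q M K)^[m] v = v := by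
        have h3 : ((phiE (fun o c => if col (nm o) = c then (1 : ZMod q) else 0)
          (fun (e : Fin M) c (k : ZMod q) =>
          if k = 0 then (if col (nm (cp1 e)) = c then (1 : ZMod q) else 0) else 0) :
            Vx q M K ≃ Vx q M K) : Vx q M K → Vx q M K) =
            phi (fun o c => if col (nm o) = c then (1 : ZMod q) else 0)
              (fun (e : Fin M) c (k : ZMod q) =>
          if k = 0 then (if col (nm (cp1 e)) = c then (1 : ZMod q) else 0) else 0) := rfl
        rw [h3, h1, hq.cast]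
        simp only [zero_mul]
        exact phi_zero v
      exact h2

end Pool.Agent.R892.Ord
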