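import Pool.Agent.R892.Ord.Red

/-!
# Isomorphisms of bounded order: the reduction is computable in polynomial time
-/

set_option autoImplicit false
set_option linter.unusedSectionVars false

namespace Pool.Agent.NPC.R892

open Pool.Agent.R892.Ord Pool.Agent.NPC.R671 Pool.Agent.H692R2

variable {α : Type} [TEnc α]

theorem poly_nmL {f : α → List (ℕ × ℕ)} {g : α → ℕ} (hf : Poly f) (hg : Poly g) :
    Poly (fun a => nmL (f a) (g a)) := by
  unfold nmL
  fun_prop

theorem poly_SL : Poly SL := by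
  have hl : UPoly (fun E : List (ℕ × ℕ) => E.length) := UPoly.length Poly.id
  have h1 : Poly (fun E : List (ℕ × ℕ) => List.range (2 * E.length)) :=
    UPoly.range ((UPoly.const 2).mul hl)
  unfold SL
  refine Poly.filter (p := fun E (p : ℕ × ℕ) => decide (nmL E p.1 = nmL E p.2) &&
    (decide (p.1 < p.2) && (List.range (2 * E.length)).all fun k =>
        !(decide (p.1 < k) && (decide (k < p.2) && decide (nmL E k = nmL E p.1)))))
    (poly_product h1 h1) ?_
  have e1 : Poly (fun x : List (ℕ × ℕ) × (ℕ × ℕ) => nmL x.1 x.2.1) :=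
    poly_nmL (Poly.fst Poly.id) (Poly.fst (Poly.snd Poly.id))
  have e2 : Poly (fun x : List (ℕ × ℕ) × (ℕ × ℕ) => nmL x.1 x.2.2) :=
    poly_nmL (Poly.fst Poly.id) (Poly.snd (Poly.snd Poly.id))
  refine Poly.and (Poly.dec_eq e1 e2) (Poly.and (by fun_prop) ?_)
  refine Poly.all (p := fun (x : List (ℕ × ℕ) × (ℕ × ℕ)) k =>
    !(decide (x.2.1 < k) && (decide (k < x.2.2) && decide (nmL x.1 k = nmL x.1 x.2.1))))
    (h1.comp (Poly.fst Poly.id)) ?_
  have e3 : Poly (fun x : (List (ℕ × ℕ) × (ℕ × ℕ)) × ℕ => nmL x.1.1 x.2) :=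
    poly_nmL (Poly.fst (Poly.fst Poly.id)) (Poly.snd Poly.id)
  have e4 : Poly (fun x : (List (ℕ × ℕ) × (ℕ × ℕ)) × ℕ => nmL x.1.1 x.1.2.1) :=
    poly_nmL (Poly.fst (Poly.fst Poly.id)) (Poly.fst (Poly.snd (Poly.fst Poly.id)))
  have e5 := Poly.dec_eq e3 e4
  fun_prop

theorem poly_vlu {f : α → Lab} (hf : Poly f) {g : α → ℕ} (hg : Poly g) :
    Poly (fun a => vlu (f a) (g a)) := by
  unfold vlu
  fun_prop

theorem poly_codeL {f : α → Lab} (hf : Poly f) : Poly (fun a => codeL (f a)) := by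
  unfold codeL
  fun_prop

theorem poly_rXX {f h : α → Lab} {S : α → List (ℕ × ℕ)} (q : ℕ) (hf : Poly f) (hh : Poly h)
    (hS : Poly S) : Poly (fun a => rXX q (S a) (f a) (h a)) := by
  have e1 := poly_vlu hf (Poly.const 0)
  have e2 := poly_vlu hh (Poly.const 0)
  unfold rXX
  fun_prop

theorem poly_rTX {f h : α → Lab} (q g : ℕ) (hf : Poly f) (hh : Poly h) :
    Poly (fun a => rTX q g (f a) (h a)) := by
  have e1 := poly_vlu hf (Poly.const 0)
  have e2 := poly_vlu hh (Poly.const 0)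
  have e3 := poly_vlu hf (Poly.const 1)
  unfold rTX
  fun_prop

theorem poly_rLL {f h : α → Lab} (q : ℕ) (hf : Poly f) (hh : Poly h) :
    Poly (fun a => rLL q (f a) (h a)) := by
  have e1 := poly_vlu hf (Poly.const 0)
  have e2 := poly_vlu hh (Poly.const 0)
  have e3 := poly_vlu hf (Poly.const 1)
  have e4 := poly_vlu hh (Poly.const 1)
  unfold rLL
  fun_prop

theorem poly_rLX {f h : α → Lab} (hf : Poly f) (hh : Poly h) :
    Poly (fun a => rLX (f a) (h a)) := by
  have e1 := poly_vlu hf (Poly.const 0)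
  have e2 := poly_vlu hh (Poly.const 0)
  unfold rLX
  fun_prop

theorem poly_rWL {f h : α → Lab} (hf : Poly f) (hh : Poly h) :
    Poly (fun a => rWL (f a) (h a)) := by
  have e2 := poly_vlu hh (Poly.const 0)
  have e1 := poly_vlu hf e2
  have e4 := poly_vlu hh (Poly.const 1)
  unfold rWL
  fun_prop

theorem poly_rWX {f h : α → Lab} (q : ℕ) (hf : Poly f) (hh : Poly h) :
    Poly (fun a => rWX q (f a) (h a)) := by
  have e2 := poly_vlu hh (Poly.const 0)
  unfold rWX
  fun_prop

theorem poly_rl {f h : α → Lab} {S : α → List (ℕ × ℕ)} {K : α → ℕ} (q g : ℕ) (hf : Poly f)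
    (hh : Poly h) (hS : Poly S) (hK : Poly K) :
    Poly (fun a => rl q (K a) (S a) g (f a) (h a)) := by
  have e1 := poly_rXX q hf hh hS
  have e2 := poly_rTX q g hf hh
  have e3 := poly_rLL q hf hh
  have e4 := poly_rLX hf hh
  have e5 := poly_rWL hf hh
  have e6 := poly_rWX q hf hh
  have e7 := poly_codeL hh
  unfold rl
  fun_prop

theorem poly_ad {f h : α → Lab} {S : α → List (ℕ × ℕ)} {K : α → ℕ} (q g : ℕ) (hf : Poly f)
    (hh : Poly h) (hS : Poly S) (hK : Poly K) :
    Poly (fun a => ad q (K a) (S a) g (f a) (h a)) := by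
  have e1 := poly_rl q g hf hh hS hK
  have e2 := poly_rl q g hh hf hS hK
  unfold ad
  fun_prop

theorem poly_vl (q : ℕ) [NeZero q] :
    Poly (fun E : List (ℕ × ℕ) => vl q E.length (KK E)) := by
  have hl : UPoly (fun E : List (ℕ × ℕ) => E.length) := UPoly.length Poly.id
  have h1 : Poly (fun E : List (ℕ × ℕ) => List.range E.length) := UPoly.range hl
  have h2 : Poly (fun E : List (ℕ × ℕ) => List.range (2 * E.length)) :=
    UPoly.range ((UPoly.const 2).mul hl)
  have h3 : Poly (fun E : List (ℕ × ℕ) => List.range (KK E)) :=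
    UPoly.range (((UPoly.const 64).mul hl).add (UPoly.const 2))
  have h4 : Poly (fun E : List (ℕ × ℕ) => List.range (KK E + 1)) :=
    UPoly.range ((((UPoly.const 64).mul hl).add (UPoly.const 2)).add (UPoly.const 1))
  have h5 : Poly (fun _ : List (ℕ × ℕ) => List.range 3) := Poly.const _
  have h6 : Poly (fun _ : List (ℕ × ℕ) => List.range q) := Poly.const _
  have h7 : Poly (fun _ : List (ℕ × ℕ) => FN q) := Poly.const _
  unfold vl v0 v1 v2 v3 v4 v5
  generalize FN q = fn at *
  generalize List.range q = rq at *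
  fun_prop

theorem poly_mtr_aux (q g : ℕ) (V : List (ℕ × ℕ) → List Lab) (hv : Poly V) :
    Poly (fun E : List (ℕ × ℕ) => (V E).map fun u => (V E).map fun w =>
      ad q (KK E) (SL E) g u w) := by
  have hK : Poly KK := by unfold KK; fun_prop
  have hS := poly_SL
  have h1 : Poly (fun p : (List (ℕ × ℕ) × Lab) × Lab =>
      ad q (KK p.1.1) (SL p.1.1) g p.1.2 p.2) :=
    poly_ad (f := fun p : (List (ℕ × ℕ) × Lab) × Lab => p.1.2) (h := fun p => p.2)
      (S := fun p => SL p.1.1) (K := fun p => KK p.1.1) q g (Poly.snd (Poly.fst Poly.id))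
      (Poly.snd Poly.id) (hS.comp (Poly.fst (Poly.fst Poly.id)))
      (hK.comp (Poly.fst (Poly.fst Poly.id)))
  have h2 : Poly (fun p : List (ℕ × ℕ) × Lab => (V p.1).map fun w =>
      ad q (KK p.1) (SL p.1) g p.2 w) :=
    Poly.map (l := fun p : List (ℕ × ℕ) × Lab => V p.1)
      (F := fun (p : List (ℕ × ℕ) × Lab) w => ad q (KK p.1) (SL p.1) g p.2 w)
      (hv.comp (Poly.fst Poly.id)) h1
  exact Poly.map (l := V) (F := fun E u => (V E).map fun w => ad q (KK E) (SL E) g u w) hv h2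

theorem poly_mtr (q : ℕ) [NeZero q] (g : ℕ) : Poly (fun E : List (ℕ × ℕ) => mtr q E g) :=
  poly_mtr_aux q g (fun E => vl q E.length (KK E)) (poly_vl q)

end Pool.Agent.NPC.R892
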