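import Pool.Agent.R892.Ord.Lab
import Pool.Agent.R892.Ord.Deg
import Pool.Agent.H671R2.PolyAuto
import Pool.Agent.H692R2.Col

/-!
# Isomorphisms of bounded order: the reduction
-/

set_option autoImplicit false
set_option linter.unusedSectionVars false

namespace Pool.Agent.R892.Ord

open Pool.Agent.NPC Pool.Agent.NPC.R671 Pool.Agent.H692R2

/-- The name of a copy. -/
def nmL (E : List (ℕ × ℕ)) (o : ℕ) : ℕ :=
  bif decide (o % 2 = 0) then (E.getD (o / 2) (0, 0)).1 else (E.getD (o / 2) (0, 0)).2

/-- The pairs of consecutive copies. -/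
def SL (E : List (ℕ × ℕ)) : List (ℕ × ℕ) :=
  ((List.range (2 * E.length)) ×ˢ (List.range (2 * E.length))).filter fun p =>
    decide (nmL E p.1 = nmL E p.2) && (decide (p.1 < p.2) &&
      (List.range (2 * E.length)).all fun k =>
        !(decide (p.1 < k) && (decide (k < p.2) && decide (nmL E k = nmL E p.1))))

/-- The name of a copy, typed. -/
def nmF (E : List (ℕ × ℕ)) (o : Fin (2 * E.length)) : ℕ := nmL E o.1

theorem mem_SL (E : List (ℕ × ℕ)) (o o' : Fin (2 * E.length)) :
    (o.1, o'.1) ∈ SL E ↔ Nxt (nmF E) o o' := by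
  unfold SL Nxt nmF
  rw [List.mem_filter, List.mem_product]
  simp only [List.mem_range, o.2, o'.2, and_self, true_and, Bool.and_eq_true, decide_eq_true_eq,
    List.all_eq_true, Bool.not_eq_true', Bool.and_eq_false_iff, decide_eq_false_iff_not]
  refine and_congr Iff.rfl (and_congr Iff.rfl ?_)
  constructor
  · intro h k h1 h2 h3
    rcases h k.1 k.2 with h | h | h
    · exact h h1
    · exact h h2
    · exact h h3
  · intro h k hk
    by_cases h1 : o.1 < k
    · by_cases h2 : k < o'.1
      · exact Or.inr (Or.inr (h ⟨k, hk⟩ h1 h2))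
      · exact Or.inr (Or.inl h2)
    · exact Or.inl h1

/-- The lists of the values of all functions. -/
noncomputable def FN (q : ℕ) [NeZero q] : List (List ℕ) :=
  (Finset.univ : Finset (ZMod q → ZMod q)).toList.map
    fun h => (List.range q).map fun (k : ℕ) => (h (k : ZMod q)).val

/-- The labels of kind `0`. -/
def v0 (q M : ℕ) : List Lab :=
  ((List.range 3) ×ˢ ((List.range (2 * M)) ×ˢ ((List.range 3) ×ˢ (List.range q)))).map
    fun p => (0, p.1, p.2.1, p.2.2.1, [p.2.2.2])

/-- The labels of kind `1`. -/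
def v1 (q M : ℕ) : List Lab :=
  ((List.range (2 * M)) ×ˢ ((List.range q) ×ˢ (List.range q))).map
    fun p => (1, 0, p.1, 0, [p.2.1, p.2.2])

/-- The labels of kind `2`. -/
def v2 (q M : ℕ) : List Lab :=
  ((List.range 3) ×ˢ ((List.range M) ×ˢ ((List.range 3) ×ˢ ((List.range q) ×ˢ (List.range q))))).map
    fun p => (2, p.1, p.2.1, p.2.2.1, [p.2.2.2.1, p.2.2.2.2])

/-- The labels of kind `3`. -/
noncomputable def v3 (q M : ℕ) [NeZero q] : List Lab :=
  ((List.range M) ×ˢ ((List.range 3) ×ˢ (FN q))).map fun p => (3, 0, p.1, p.2.1, p.2.2)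

/-- The labels of kind `4`. -/
def v4 (K : ℕ) : List Lab := (List.range K).map fun j => (4, 0, j, 0, [])

/-- The labels of kind `5`. -/
def v5 (K : ℕ) : List Lab := (List.range (K + 1)).map fun j => (5, 0, j, 0, [])

/-- All labels. -/
noncomputable def vl (q M K : ℕ) [NeZero q] : List Lab :=
  v0 q M ++ (v1 q M ++ (v2 q M ++ (v3 q M ++ (v4 K ++ v5 K))))

variable {q : ℕ} [NeZero q]

theorem nodup_FN : (FN q).Nodup :=
  (Finset.nodup_toList _).map fun _ _ h => funList_inj h

theorem nodup_vl (M K : ℕ) : (vl q M K).Nodup := by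
  have n0 : (v0 q M).Nodup := List.Nodup.map (fun a b h => by
    simp only [Prod.mk.injEq, List.cons.injEq, and_true, true_and] at h
    exact Prod.ext h.1 (Prod.ext h.2.1 (Prod.ext h.2.2.1 h.2.2.2)))
    (List.nodup_range.product (List.nodup_range.product (List.nodup_range.product
      List.nodup_range)))
  have n1 : (v1 q M).Nodup := List.Nodup.map (fun a b h => by
    simp only [Prod.mk.injEq, List.cons.injEq, and_true, true_and] at h
    exact Prod.ext h.1 (Prod.ext h.2.1 h.2.2))
    (List.nodup_range.product (List.nodup_range.product List.nodup_range))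
  have n2 : (v2 q M).Nodup := List.Nodup.map (fun a b h => by
    simp only [Prod.mk.injEq, List.cons.injEq, and_true, true_and] at h
    exact Prod.ext h.1 (Prod.ext h.2.1 (Prod.ext h.2.2.1 (Prod.ext h.2.2.2.1 h.2.2.2.2))))
    (List.nodup_range.product (List.nodup_range.product (List.nodup_range.product
      (List.nodup_range.product List.nodup_range))))
  have n3 : (v3 q M).Nodup := List.Nodup.map (fun a b h => by
    simp only [Prod.mk.injEq, true_and] at h
    exact Prod.ext h.1 (Prod.ext h.2.1 h.2.2))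
    (List.nodup_range.product (List.nodup_range.product nodup_FN))
  have n4 : (v4 K).Nodup := List.Nodup.map (fun a b h => by
    simp only [Prod.mk.injEq, and_true, true_and] at h
    exact h) List.nodup_range
  have n5 : (v5 K).Nodup := List.Nodup.map (fun a b h => by
    simp only [Prod.mk.injEq, and_true, true_and] at h
    exact h) List.nodup_range
  have k0 : ∀ z ∈ v0 q M, z.1 = 0 := by
    intro z hz; obtain ⟨p, -, rfl⟩ := List.mem_map.1 hz; rfl
  have k1 : ∀ z ∈ v1 q M, z.1 = 1 := by
    intro z hz; obtain ⟨p, -, rfl⟩ := List.mem_map.1 hz; rfl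
  have k2 : ∀ z ∈ v2 q M, z.1 = 2 := by
    intro z hz; obtain ⟨p, -, rfl⟩ := List.mem_map.1 hz; rfl
  have k3 : ∀ z ∈ v3 q M, z.1 = 3 := by
    intro z hz; obtain ⟨p, -, rfl⟩ := List.mem_map.1 hz; rfl
  have k4 : ∀ z ∈ v4 K, z.1 = 4 := by
    intro z hz; obtain ⟨p, -, rfl⟩ := List.mem_map.1 hz; rfl
  have k5 : ∀ z ∈ v5 K, z.1 = 5 := by
    intro z hz; obtain ⟨p, -, rfl⟩ := List.mem_map.1 hz; rfl
  unfold vl
  refine n0.append (n1.append (n2.append (n3.append (n4.append n5 ?_) ?_) ?_) ?_) ?_
  · intro z h h'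
    have := k4 z h; have := k5 z h'; omega
  · intro z h h'
    have := k3 z h
    rcases List.mem_append.1 h' with h' | h'
    · have := k4 z h'; omega
    · have := k5 z h'; omega
  · intro z h h'
    have := k2 z h
    rcases List.mem_append.1 h' with h' | h'
    · have := k3 z h'; omega
    rcases List.mem_append.1 h' with h' | h'
    · have := k4 z h'; omega
    · have := k5 z h'; omega
  · intro z h h'
    have := k1 z h
    rcases List.mem_append.1 h' with h' | h'
    · have := k2 z h'; omega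
    rcases List.mem_append.1 h' with h' | h'
    · have := k3 z h'; omega
    rcases List.mem_append.1 h' with h' | h'
    · have := k4 z h'; omega
    · have := k5 z h'; omega
  · intro z h h'
    have := k0 z h
    rcases List.mem_append.1 h' with h' | h'
    · have := k1 z h'; omega
    rcases List.mem_append.1 h' with h' | h'
    · have := k2 z h'; omega
    rcases List.mem_append.1 h' with h' | h'
    · have := k3 z h'; omega
    rcases List.mem_append.1 h' with h' | h'
    · have := k4 z h'; omega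
    · have := k5 z h'; omega

theorem val_cast {a : ℕ} (h : a < q) : ((a : ZMod q)).val = a := ZMod.val_natCast_of_lt h

theorem mem_vl {M K : ℕ} (z : Lab) : z ∈ vl q M K ↔ ∃ x : Vx q M K, lab x = z := by
  unfold vl
  simp only [List.mem_append]
  constructor
  · rintro (h | h | h | h | h | h)
    · obtain ⟨⟨r, o, c, a⟩, hp, rfl⟩ := List.mem_map.1 h
      simp only [List.mem_product, List.mem_range] at hp
      exact ⟨.X ⟨r, hp.1⟩ ⟨o, hp.2.1⟩ ⟨c, hp.2.2.1⟩ (a : ZMod q), by
        simp only [lab, val_cast hp.2.2.2]⟩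
    · obtain ⟨⟨o, a, b⟩, hp, rfl⟩ := List.mem_map.1 h
      simp only [List.mem_product, List.mem_range] at hp
      exact ⟨.T ⟨o, hp.1⟩ (a : ZMod q) (b : ZMod q), by
        simp only [lab, val_cast hp.2.1, val_cast hp.2.2]⟩
    · obtain ⟨⟨r, e, c, k, i⟩, hp, rfl⟩ := List.mem_map.1 h
      simp only [List.mem_product, List.mem_range] at hp
      exact ⟨.L ⟨r, hp.1⟩ ⟨e, hp.2.1⟩ ⟨c, hp.2.2.1⟩ (k : ZMod q) (i : ZMod q), by
        simp only [lab, val_cast hp.2.2.2.1, val_cast hp.2.2.2.2]⟩
    · obtain ⟨⟨e, c, w⟩, hp, rfl⟩ := List.mem_map.1 h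
      simp only [List.mem_product, List.mem_range] at hp
      obtain ⟨w, -, rfl⟩ := List.mem_map.1 hp.2.2
      exact ⟨.W ⟨e, hp.1⟩ ⟨c, hp.2.1⟩ w, rfl⟩
    · obtain ⟨j, hj, rfl⟩ := List.mem_map.1 h
      exact ⟨.P ⟨j, List.mem_range.1 hj⟩, rfl⟩
    · obtain ⟨j, hj, rfl⟩ := List.mem_map.1 h
      exact ⟨.Q ⟨j, List.mem_range.1 hj⟩, rfl⟩
  · rintro ⟨x, rfl⟩
    rcases x with ⟨r, o, c, a⟩ | ⟨o, a, b⟩ | ⟨r, e, c, k, i⟩ | ⟨e, c, w⟩ | j | j
    · refine Or.inl (List.mem_map.2 ⟨(r.1, o.1, c.1, a.val), ?_, rfl⟩)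
      simp only [List.mem_product, List.mem_range]
      exact ⟨r.2, o.2, c.2, ZMod.val_lt a⟩
    · refine Or.inr (Or.inl (List.mem_map.2 ⟨(o.1, a.val, b.val), ?_, rfl⟩))
      simp only [List.mem_product, List.mem_range]
      exact ⟨o.2, ZMod.val_lt a, ZMod.val_lt b⟩
    · refine Or.inr (Or.inr (Or.inl (List.mem_map.2 ⟨(r.1, e.1, c.1, k.val, i.val), ?_, rfl⟩)))
      simp only [List.mem_product, List.mem_range]
      exact ⟨r.2, e.2, c.2, ZMod.val_lt k, ZMod.val_lt i⟩
    · refine Or.inr (Or.inr (Or.inr (Or.inl (List.mem_map.2 ⟨(e.1, c.1,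
        (List.range q).map fun (k : ℕ) => (w (k : ZMod q)).val), ?_, rfl⟩))))
      simp only [List.mem_product, List.mem_range]
      exact ⟨e.2, c.2, List.mem_map.2 ⟨w, by simp, rfl⟩⟩
    · exact Or.inr (Or.inr (Or.inr (Or.inr (Or.inl (List.mem_map.2
        ⟨j.1, List.mem_range.2 j.2, rfl⟩)))))
    · exact Or.inr (Or.inr (Or.inr (Or.inr (Or.inr (List.mem_map.2
        ⟨j.1, List.mem_range.2 j.2, rfl⟩)))))

/-- The number of the vertices of the path. -/
def KK (E : List (ℕ × ℕ)) : ℕ := 64 * E.length + 2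

/-- One of the two graphs. -/
noncomputable def gr (q : ℕ) [NeZero q] (E : List (ℕ × ℕ)) (g : ℕ) :
    SimpleGraph (Fin (vl q E.length (KK E)).length) :=
  listGraph (vl q E.length (KK E)) (ad q (KK E) (SL E) g) (ad_symm q (KK E) (SL E) g)
    (ad_irrefl q (KK E) (SL E) g)

/-- One of the two matrices. -/
noncomputable def mtr (q : ℕ) [NeZero q] (E : List (ℕ × ℕ)) (g : ℕ) : List (List Bool) :=
  (vl q E.length (KK E)).map fun u => (vl q E.length (KK E)).map fun w =>
    ad q (KK E) (SL E) g u w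

theorem adjMatrix_gr (E : List (ℕ × ℕ)) (g : ℕ) : adjMatrix (gr q E g) = mtr q E g :=
  adjMatrix_listGraph _ _ _ _

/-- The graphs are those of the gadget. -/
theorem exists_equiv_gr (q : ℕ) [NeZero q] (E : List (ℕ × ℕ)) :
    ∃ e : Fin (vl q E.length (KK E)).length ≃ Vx q E.length (KK E), ∀ (g : ℕ) i j,
      (gr q E g).Adj i j ↔ Ad (nmF E) (g : ZMod q) (e i) (e j) := by
  obtain ⟨e, he⟩ := exists_equiv (vl q E.length (KK E)) (nodup_vl _ _)
    (lab (q := q) (M := E.length) (K := KK E)) lab_injective mem_vl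
  refine ⟨e, fun g i j => ?_⟩
  rw [← ad_lab (mem_SL E), he, he]
  rfl

theorem gr_iso (E : List (ℕ × ℕ)) : Nonempty (gr q E 0 ≃g gr q E 1) := by
  obtain ⟨e, he⟩ := exists_equiv_gr q E
  obtain ⟨π, hπ⟩ := iso_exists (q := q) (K := KK E) (nmF E)
  refine ⟨⟨(e.trans π).trans e.symm, ?_⟩⟩
  intro i j
  rw [he, he]
  push_cast
  rw [hπ]
  simp

theorem gr_degree (E : List (ℕ × ℕ)) (g : ℕ) (i) : ((gr q E g).neighborSet i).ncard ≤ dg q := by
  obtain ⟨e, he⟩ := exists_equiv_gr q E
  refine le_trans ?_ (degree_le (nmF E) (g : ZMod q) (e i))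
  have : Finite (Vx q E.length (KK E)) := Finite.of_equiv _ e
  refine Set.ncard_le_ncard_of_injOn e ?_ e.injective.injOn (Set.toFinite _)
  intro j hj
  exact (he g i j).1 hj

theorem gr_order {m : ℕ} (hq : Good q m) (E : List (ℕ × ℕ)) :
    Col 3 E ↔ ∃ π : Equiv.Perm (Fin (vl q E.length (KK E)).length), π ^ m = 1 ∧
      ∀ u v, (gr q E 0).Adj u v ↔ (gr q E 1).Adj (π u) (π v) := by
  obtain ⟨e, he⟩ := exists_equiv_gr q E
  have h1 : Col 3 E ↔ ∃ col : ℕ → Fin 3, ∀ i : Fin E.length,
      col (nmF E (cp0 i)) ≠ col (nmF E (cp1 i)) := by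
    unfold Col
    refine exists_congr fun col => ?_
    have key : ∀ i : Fin E.length, nmF E (cp0 i) = E[i].1 ∧ nmF E (cp1 i) = E[i].2 := by
      intro i
      have h2 : (2 * i.1 + 1) / 2 = i.1 := by omega
      have h3 : (2 * i.1) / 2 = i.1 := by omega
      have h4 : (2 * i.1 + 1) % 2 = 1 := by omega
      have h5 : (2 * i.1) % 2 = 0 := by omega
      unfold nmF nmL cp0 cp1
      simp only [h2, h3, h4, h5]
      rw [List.getD_eq_getElem _ _ i.2]
      exact ⟨rfl, rfl⟩
    constructor
    · intro h i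
      rw [(key i).1, (key i).2]
      exact h _ (List.getElem_mem _)
    · intro h x hx
      obtain ⟨i, hi, rfl⟩ := List.getElem_of_mem hx
      have := h ⟨i, hi⟩
      rw [(key _).1, (key _).2] at this
      exact this
  rw [h1, ← main_iff (q := q) (m := m) (K := KK E) rfl hq]
  constructor
  · rintro ⟨π, h2, h3⟩
    refine ⟨(e.trans π).trans e.symm, ?_, fun u v => ?_⟩
    · have h4 : ∀ (n : ℕ) (u), (((e.trans π).trans e.symm : Equiv.Perm _) ^ n) u =
          e.symm (π^[n] (e u)) := by
        intro n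
        induction n with
        | zero => intro u; simp
        | succ n ih =>
          intro u
          rw [pow_succ', Equiv.Perm.mul_apply, ih, Function.iterate_succ_apply']
          simp
      ext u
      rw [h4, h3]
      simp
    · rw [he, he]
      push_cast
      rw [h2]
      simp
  · rintro ⟨π, h2, h3⟩
    refine ⟨(e.symm.trans π).trans e, fun u v => ?_, fun v => ?_⟩
    · have := h3 (e.symm u) (e.symm v)
      rw [he, he] at this
      push_cast at this
      simpa using this
    · have h4 : ∀ (n : ℕ) (u), ((e.symm.trans π).trans e)^[n] u = e ((π ^ n) (e.symm u)) := by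
        intro n
        induction n with
        | zero => intro u; simp
        | succ n ih =>
          intro u
          rw [pow_succ', Equiv.Perm.mul_apply, Function.iterate_succ_apply', ih]
          simp
      rw [h4, h2]
      simp

end Pool.Agent.R892.Ord
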