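import Pool.Agent.R892.Ord.Gadget

/-!
# Isomorphisms of bounded order: all isomorphisms are products of shifts
-/

set_option autoImplicit false
set_option linter.unusedSectionVars false

namespace Pool.Agent.R892.Ord

variable {q M K : ℕ} [NeZero q]

/-- The vertex is neither on the path nor a leaf. -/
def IsCore : Vx q M K → Prop
  | .P _ => False
  | .Q _ => False
  | _ => True

theorem code_lt (v : Vx q M K) (hK : K = 64 * M + 2) : code v < K := by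
  rcases v with ⟨r, o, c, a⟩ | ⟨o, a, b⟩ | ⟨r, e, c, k, i⟩ | ⟨e, c, h⟩ | j | j <;>
    simp only [code] <;> omega

theorem blk {x y x' y' : ℕ} (hy : y < 32) (hy' : y' < 32) (h : 32 * x + y = 32 * x' + y') :
    x = x' ∧ y = y' := by omega

theorem blk3 {x y x' y' : ℕ} (hy : y < 3) (hy' : y' < 3) (h : 3 * x + y = 3 * x' + y') :
    x = x' ∧ y = y' := by omega

theorem blk4 {x y x' y' : ℕ} (hy : y < 4) (hy' : y' < 4) (h : 10 + 4 * x + y = 10 + 4 * x' + y') :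
    x = x' ∧ y = y' := by omega

theorem code_X {r o c} {a : ZMod q} {u : Vx q M K} (hu : IsCore u)
    (h : code u = code (.X r o c a : Vx q M K)) : ∃ a', u = .X r o c a' := by
  rcases u with ⟨r', o', c', a'⟩ | ⟨o', a', b'⟩ | ⟨r', e', c', k', i'⟩ | ⟨e', c', h'⟩ | j | j
  · refine ⟨a', ?_⟩
    obtain ⟨h1, h2⟩ := blk (by omega) (by omega) h
    obtain ⟨h3, h4⟩ := blk3 r'.2 r.2 h2
    rw [Fin.ext h1, Fin.ext h3, Fin.ext h4]
  · have := (blk (by omega) (by omega) h).2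
    omega
  · have := (blk (by omega) (by omega) h).2
    omega
  · have := (blk (by omega) (by omega) h).2
    omega
  · exact hu.elim
  · exact hu.elim

theorem code_T {o} {a b : ZMod q} {u : Vx q M K} (hu : IsCore u)
    (h : code u = code (.T o a b : Vx q M K)) : ∃ a' b', u = .T o a' b' := by
  rcases u with ⟨r', o', c', a'⟩ | ⟨o', a', b'⟩ | ⟨r', e', c', k', i'⟩ | ⟨e', c', h'⟩ | j | j
  · have := (blk (by omega) (by omega) h).2
    omega
  · refine ⟨a', b', ?_⟩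
    obtain ⟨h1, h2⟩ := blk (by omega) (by omega) h
    rw [Fin.ext h1]
  · have := (blk (by omega) (by omega) h).2
    omega
  · have := (blk (by omega) (by omega) h).2
    omega
  · exact hu.elim
  · exact hu.elim

theorem code_L {r e c} {k i : ZMod q} {u : Vx q M K} (hu : IsCore u)
    (h : code u = code (.L r e c k i : Vx q M K)) : ∃ k' i', u = .L r e c k' i' := by
  rcases u with ⟨r', o', c', a'⟩ | ⟨o', a', b'⟩ | ⟨r', e', c', k', i'⟩ | ⟨e', c', h'⟩ | j | j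
  · have := (blk (by omega) (by omega) h).2
    omega
  · have := (blk (by omega) (by omega) h).2
    omega
  · refine ⟨k', i', ?_⟩
    obtain ⟨h1, h2⟩ := blk (by omega) (by omega) h
    obtain ⟨h3, h4⟩ := blk4 (by omega) (by omega) h2
    rw [Fin.ext h1, Fin.ext h3, Fin.ext h4]
  · obtain ⟨h1, h2⟩ := blk (by omega) (by omega) h
    have h2' : 10 + 4 * c'.1 + 3 = 10 + 4 * c.1 + r.1 := by omega
    have := (blk4 (by omega) (by omega) h2').2
    omega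
  · exact hu.elim
  · exact hu.elim

theorem code_W {e c} {h₀ : ZMod q → ZMod q} {u : Vx q M K} (hu : IsCore u)
    (h : code u = code (.W e c h₀ : Vx q M K)) : ∃ h', u = .W e c h' := by
  rcases u with ⟨r', o', c', a'⟩ | ⟨o', a', b'⟩ | ⟨r', e', c', k', i'⟩ | ⟨e', c', h'⟩ | j | j
  · have := (blk (by omega) (by omega) h).2
    omega
  · have := (blk (by omega) (by omega) h).2
    omega
  · obtain ⟨h1, h2⟩ := blk (by omega) (by omega) h
    have h2' : 10 + 4 * c'.1 + r'.1 = 10 + 4 * c.1 + 3 := by omega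
    have := (blk4 (by omega) (by omega) h2').2
    omega
  · refine ⟨h', ?_⟩
    obtain ⟨h1, h2⟩ := blk (by omega) (by omega) h
    have h3 : c' = c := Fin.ext (by omega)
    rw [Fin.ext h1, h3]
  · exact hu.elim
  · exact hu.elim

theorem ad_P_code {nm : Fin (2 * M) → ℕ} {g : ZMod q} (v : Vx q M K) (hv : IsCore v) (j : Fin K) :
    Ad nm g (.P j) v ↔ j.1 = code v := by
  rcases v with ⟨r, o, c, a⟩ | ⟨o, a, b⟩ | ⟨r, e, c, k, i⟩ | ⟨e, c, h⟩ | j' | j'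
  · simp only [Ad, R, or_false]
  · simp only [Ad, R, or_false]
  · simp only [Ad, R, or_false]
  · simp only [Ad, R, or_false]
  · exact hv.elim
  · exact hv.elim

/-- The vertex has exactly one neighbour. -/
def IsLf (nm : Fin (2 * M) → ℕ) (g : ZMod q) (v : Vx q M K) : Prop :=
  ∃ u, Ad nm g v u ∧ ∀ w, Ad nm g v w → w = u

theorem not_isLf {nm : Fin (2 * M) → ℕ} {g : ZMod q} {v u w : Vx q M K} (h1 : Ad nm g v u)
    (h2 : Ad nm g v w) (h : u ≠ w) : ¬ IsLf nm g v := by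
  rintro ⟨x, -, hx⟩
  exact h ((hx u h1).trans (hx w h2).symm)

theorem isLf_iff {nm : Fin (2 * M) → ℕ} {g : ZMod q} (hK : K = 64 * M + 2) (v : Vx q M K) :
    IsLf nm g v ↔ ∃ j, v = .Q j := by
  constructor
  · intro h
    by_contra hv
    have hc : IsCore v → Ad nm g v (.P ⟨code v, code_lt v hK⟩) := fun h =>
      ((ad_P_code v h _).2 rfl).symm
    rcases v with ⟨r, o, c, a⟩ | ⟨o, a, b⟩ | ⟨r, e, c, k, i⟩ | ⟨e, c, h'⟩ | j | j
    · have h3 : ∃ r' a', Ad nm g (.X r o c a : Vx q M K) (.X r' o c a') := by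
        rcases (show r = 0 ∨ r = 1 ∨ r = 2 by fin_cases r <;> simp) with rfl | rfl | rfl
        · exact ⟨1, a, Or.inl (Or.inl ⟨rfl, rfl, Or.inl ⟨rfl, rfl, rfl⟩⟩)⟩
        · exact ⟨2, a, Or.inl (Or.inl ⟨rfl, rfl, Or.inr (Or.inl ⟨rfl, rfl, rfl⟩)⟩)⟩
        · exact ⟨0, a + 1, Or.inl (Or.inl ⟨rfl, rfl, Or.inr (Or.inr ⟨rfl, rfl, rfl⟩)⟩)⟩
      obtain ⟨r', a', h3⟩ := h3
      exact not_isLf (hc trivial) h3 (by simp) h
    · have h3 : Ad nm g (.T o a b : Vx q M K) (.X 0 o 0 a) :=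
        Or.inl ⟨rfl, rfl, Or.inl ⟨rfl, rfl⟩⟩
      exact not_isLf (hc trivial) h3 (by simp) h
    · have h3 : ∃ r' i', Ad nm g (.L r e c k i : Vx q M K) (.L r' e c k i') := by
        rcases (show r = 0 ∨ r = 1 ∨ r = 2 by fin_cases r <;> simp) with rfl | rfl | rfl
        · exact ⟨1, i, Or.inl ⟨rfl, rfl, rfl, Or.inl ⟨rfl, rfl, rfl⟩⟩⟩
        · exact ⟨2, i, Or.inl ⟨rfl, rfl, rfl, Or.inr (Or.inl ⟨rfl, rfl, rfl⟩)⟩⟩
        · exact ⟨0, i + 1, Or.inl ⟨rfl, rfl, rfl, Or.inr (Or.inr ⟨rfl, rfl, rfl⟩)⟩⟩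
      obtain ⟨r', i', h3⟩ := h3
      exact not_isLf (hc trivial) h3 (by simp) h
    · have h3 : Ad nm g (.W e c h' : Vx q M K) (.L 0 e c 0 (h' 0)) :=
        Or.inl ⟨rfl, rfl, rfl, rfl⟩
      exact not_isLf (hc trivial) h3 (by simp) h
    · have h3 : Ad nm g (.P j : Vx q M K) (.Q ⟨j.1, by omega⟩) := Or.inl (Or.inl rfl)
      by_cases hj : j.1 + 1 < K
      · have h4 : Ad nm g (.P j : Vx q M K) (.P ⟨j.1 + 1, hj⟩) := Or.inl rfl
        exact not_isLf h3 h4 (by simp) h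
      · have h4 : Ad nm g (.P j : Vx q M K) (.P ⟨j.1 - 1, by omega⟩) :=
          Or.inr (show j.1 = j.1 - 1 + 1 by omega)
        exact not_isLf h3 h4 (by simp) h
    · exact hv ⟨j, rfl⟩
  · rintro ⟨j, rfl⟩
    by_cases hj : j.1 = K
    · refine ⟨.P ⟨0, by omega⟩, Or.inr (Or.inr ⟨rfl, hj⟩), ?_⟩
      rintro w (h | h)
      · rcases w with ⟨r, o, c, a⟩ | ⟨o, a, b⟩ | ⟨r, e, c, k, i⟩ | ⟨e, c, h'⟩ | j' | j' <;>
          exact h.elim
      · rcases w with ⟨r, o, c, a⟩ | ⟨o, a, b⟩ | ⟨r, e, c, k, i⟩ | ⟨e, c, h'⟩ | j' | j' <;>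
          try exact h.elim
        have h' : j.1 = j'.1 ∨ (j'.1 = 0 ∧ j.1 = K) := h
        congr 1
        apply Fin.ext
        show j'.1 = 0
        omega
    · refine ⟨.P ⟨j.1, by omega⟩, Or.inr (Or.inl rfl), ?_⟩
      rintro w (h | h)
      · rcases w with ⟨r, o, c, a⟩ | ⟨o, a, b⟩ | ⟨r, e, c, k, i⟩ | ⟨e, c, h'⟩ | j' | j' <;>
          exact h.elim
      · rcases w with ⟨r, o, c, a⟩ | ⟨o, a, b⟩ | ⟨r, e, c, k, i⟩ | ⟨e, c, h'⟩ | j' | j' <;>
          try exact h.elim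
        have h' : j.1 = j'.1 ∨ (j'.1 = 0 ∧ j.1 = K) := h
        congr 1
        apply Fin.ext
        show j'.1 = j.1
        omega

theorem hasLf_iff {nm : Fin (2 * M) → ℕ} {g : ZMod q} (hK : K = 64 * M + 2) (v : Vx q M K) :
    (∃ u, Ad nm g v u ∧ IsLf nm g u) ↔ ∃ j, v = .P j := by
  constructor
  · rintro ⟨u, hu, hl⟩
    obtain ⟨j, rfl⟩ := (isLf_iff hK u).1 hl
    rcases hu with h | h <;> rcases v with ⟨r, o, c, a⟩ | ⟨o, a, b⟩ | ⟨r, e, c, k, i⟩ | ⟨e, c, h'⟩ |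
      j' | j' <;> first | exact h.elim | exact ⟨_, rfl⟩
  · rintro ⟨j, rfl⟩
    exact ⟨.Q ⟨j.1, by omega⟩, Or.inl (Or.inl rfl), (isLf_iff hK _).2 ⟨_, rfl⟩⟩

theorem twoLf_iff {nm : Fin (2 * M) → ℕ} {g : ZMod q} (hK : K = 64 * M + 2) (v : Vx q M K) :
    (∃ u u', u ≠ u' ∧ Ad nm g v u ∧ Ad nm g v u' ∧ IsLf nm g u ∧ IsLf nm g u') ↔
      v = .P ⟨0, by omega⟩ := by
  constructor
  · rintro ⟨u, u', hne, hu, hu', hl, hl'⟩
    obtain ⟨j, rfl⟩ := (isLf_iff hK u).1 hl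
    obtain ⟨j', rfl⟩ := (isLf_iff hK u').1 hl'
    obtain ⟨i, rfl⟩ := (hasLf_iff hK v).1 ⟨_, hu, hl⟩
    rcases hu with h | h
    swap
    · exact h.elim
    rcases hu' with h' | h'
    swap
    · exact h'.elim
    have h1 : j.1 = i.1 ∨ (i.1 = 0 ∧ j.1 = K) := h
    have h2 : j'.1 = i.1 ∨ (i.1 = 0 ∧ j'.1 = K) := h'
    have h3 : j.1 ≠ j'.1 := fun h => hne (by rw [Fin.ext h])
    congr 1
    apply Fin.ext
    show i.1 = 0
    omega
  · rintro rfl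
    refine ⟨.Q ⟨0, by omega⟩, .Q ⟨K, by omega⟩, ?_, Or.inl (Or.inl rfl),
      Or.inl (Or.inr ⟨rfl, rfl⟩), (isLf_iff hK _).2 ⟨_, rfl⟩, (isLf_iff hK _).2 ⟨_, rfl⟩⟩
    simp only [ne_eq, Vx.Q.injEq, Fin.mk.injEq]
    omega

section

variable {nm : Fin (2 * M) → ℕ} {g g' : ZMod q} (hK : K = 64 * M + 2) {π : Vx q M K ≃ Vx q M K}
  (hπ : ∀ u v, Ad nm g u v ↔ Ad nm g' (π u) (π v))

include hπ in
theorem isLf_map (v : Vx q M K) : IsLf nm g v ↔ IsLf nm g' (π v) := by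
  constructor
  · rintro ⟨u, h1, h2⟩
    refine ⟨π u, (hπ _ _).1 h1, fun w hw => ?_⟩
    obtain ⟨w, rfl⟩ := π.surjective w
    rw [h2 w ((hπ _ _).2 hw)]
  · rintro ⟨u, h1, h2⟩
    obtain ⟨u, rfl⟩ := π.surjective u
    exact ⟨u, (hπ _ _).2 h1, fun w hw => π.injective (h2 _ ((hπ _ _).1 hw))⟩

include hK hπ in
theorem map_P (j : Fin K) : π (.P j) = .P j := by
  have hP : ∀ j, ∃ j', π (.P j) = .P j' := fun j => by
    obtain ⟨u, h1, h2⟩ := (hasLf_iff (nm := nm) (g := g) hK (.P j)).2 ⟨j, rfl⟩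
    exact (hasLf_iff hK _).1 ⟨π u, (hπ _ _).1 h1, (isLf_map hπ _).1 h2⟩
  obtain ⟨n, hn⟩ := j
  induction n using Nat.strong_induction_on with
  | _ n ih =>
    rcases n with _ | n
    · obtain ⟨u, u', h1, h2, h3, h4, h5⟩ := (twoLf_iff (nm := nm) (g := g) hK (.P ⟨0, hn⟩)).2 rfl
      exact (twoLf_iff hK _).1 ⟨π u, π u', fun h => h1 (π.injective h), (hπ _ _).1 h2,
        (hπ _ _).1 h3, (isLf_map hπ _).1 h4, (isLf_map hπ _).1 h5⟩
    · obtain ⟨j', hj'⟩ := hP ⟨n + 1, hn⟩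
      have h1 : Ad nm g (.P ⟨n, by omega⟩ : Vx q M K) (.P ⟨n + 1, hn⟩) := Or.inl rfl
      rw [hπ, hj', ih n (by omega) (by omega)] at h1
      have h2 : j'.1 = n + 1 ∨ n = j'.1 + 1 := h1
      rcases h2 with h2 | h2
      · rw [hj']
        congr 1
        exact Fin.ext h2
      · exfalso
        have h3 := ih j'.1 (by omega) j'.2
        have h4 : π (.P ⟨j'.1, j'.2⟩) = π (.P ⟨n + 1, hn⟩) := by rw [h3, hj']
        have h5 := π.injective h4
        simp only [Vx.P.injEq, Fin.mk.injEq] at h5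
        omega

include hK hπ in
theorem map_core (v : Vx q M K) (hv : IsCore v) : IsCore (π v) ∧ code (π v) = code v := by
  have h1 : IsCore (π v) := by
    rcases h : π v with ⟨r, o, c, a⟩ | ⟨o, a, b⟩ | ⟨r, e, c, k, i⟩ | ⟨e, c, h'⟩ | j | j
    · trivial
    · trivial
    · trivial
    · trivial
    · have h2 : π v = π (.P j) := by rw [h, map_P hK hπ]
      rw [π.injective h2] at hv
      exact hv
    · have h2 : IsLf nm g v := (isLf_map hπ v).2 ((isLf_iff hK _).2 ⟨j, h⟩)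
      obtain ⟨j', rfl⟩ := (isLf_iff hK _).1 h2
      exact hv
  refine ⟨h1, ?_⟩
  have h2 := (hπ (.P ⟨code v, code_lt v hK⟩) v).1 ((ad_P_code v hv _).2 rfl)
  rw [map_P hK hπ, ad_P_code _ h1] at h2
  exact h2.symm

theorem ad_XX {r r' : Fin 3} {o : Fin (2 * M)} {c : Fin 3} {a b : ZMod q}
    (h : Ad nm g (.X r o c a : Vx q M K) (.X r' o c b)) :
    (r = 0 → r' = 1 → b = a) ∧ (r = 1 → r' = 2 → b = a) ∧ (r = 2 → r' = 0 → b = a + 1) := by
  rcases h with (⟨-, -, h⟩ | ⟨-, -, h, -⟩) | (⟨-, -, h⟩ | ⟨-, -, h, -⟩)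
  · refine ⟨?_, ?_, ?_⟩ <;> rintro rfl rfl <;> simpa using h
  · exact absurd h.2.1 (lt_irrefl _)
  · refine ⟨?_, ?_, ?_⟩ <;> rintro rfl rfl <;> simp at h
  · exact absurd h.2.1 (lt_irrefl _)

include hK hπ in
theorem map_X : ∃ s : Fin (2 * M) → Fin 3 → ZMod q, ∀ o c a,
    π (.X 0 o c a) = .X 0 o c (a + s o c) := by
  have h0 : ∀ r o c a, ∃ a', π (.X r o c a) = .X r o c a' := fun r o c a =>
    code_X (a := a) (map_core hK hπ (.X r o c a) trivial).1 (map_core hK hπ (.X r o c a) trivial).2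
  choose σ hσ using h0
  refine ⟨fun o c => σ 0 o c 0, fun o c a => ?_⟩
  have h1 : ∀ a, σ 0 o c (a + 1) = σ 0 o c a + 1 := by
    intro a
    have e1 : Ad nm g (.X 0 o c a : Vx q M K) (.X 1 o c a) :=
      Or.inl (Or.inl ⟨rfl, rfl, Or.inl ⟨rfl, rfl, rfl⟩⟩)
    have e2 : Ad nm g (.X 1 o c a : Vx q M K) (.X 2 o c a) :=
      Or.inl (Or.inl ⟨rfl, rfl, Or.inr (Or.inl ⟨rfl, rfl, rfl⟩)⟩)
    have e3 : Ad nm g (.X 2 o c a : Vx q M K) (.X 0 o c (a + 1)) :=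
      Or.inl (Or.inl ⟨rfl, rfl, Or.inr (Or.inr ⟨rfl, rfl, rfl⟩)⟩)
    rw [hπ, hσ, hσ] at e1 e2 e3
    rw [(ad_XX e3).2.2 rfl rfl, (ad_XX e2).2.1 rfl rfl, (ad_XX e1).1 rfl rfl]
  have h2 : ∀ n : ℕ, σ 0 o c (n : ZMod q) = (n : ZMod q) + σ 0 o c 0 := by
    intro n
    induction n with
    | zero => simp
    | succ n ih => push_cast; rw [h1, ih]; ring
  rw [hσ]
  have h3 := h2 a.val
  rw [ZMod.natCast_zmod_val] at h3
  rw [h3]

theorem ad_LL {r r' : Fin 3} {e : Fin M} {c : Fin 3} {k k' a b : ZMod q}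
    (h : Ad nm g (.L r e c k a : Vx q M K) (.L r' e c k' b)) : k' = k ∧
    ((r = 0 → r' = 1 → b = a) ∧ (r = 1 → r' = 2 → b = a) ∧ (r = 2 → r' = 0 → b = a + 1)) := by
  rcases h with ⟨-, -, h', h⟩ | ⟨-, -, h', h⟩
  · refine ⟨h'.symm, ?_, ?_, ?_⟩ <;> rintro rfl rfl <;> simpa using h
  · refine ⟨h', ?_, ?_, ?_⟩ <;> rintro rfl rfl <;> simp at h

include hK hπ in
/-- Every isomorphism consists of shifts. -/
theorem struct : ∃ (s : Fin (2 * M) → Fin 3 → ZMod q) (f : Fin M → Fin 3 → ZMod q → ZMod q),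
    (∀ o, s o 0 + s o 1 + s o 2 + g = g') ∧ (∀ o o' c, Nxt nm o o' → s o c = s o' c) ∧
    (∀ e c, ∑ k, f e c k = s (cp1 e) c) ∧
    ∀ e c k i, π (.L 0 e c k i) = .L 0 e c (k + s (cp0 e) c) (i + f e c k) := by
  obtain ⟨s, hs⟩ := map_X hK hπ
  have h0 : ∀ r e c k i, ∃ k' i', π (.L r e c k i) = .L r e c k' i' := fun r e c k i =>
    code_L (k := k) (i := i) (map_core hK hπ (.L r e c k i) trivial).1
      (map_core hK hπ (.L r e c k i) trivial).2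
  choose κ τ hL using h0
  have hk : ∀ e c k i, κ 0 e c k i = k + s (cp0 e) c := by
    intro e c k i
    have h1 : Ad nm g (.L 0 e c k i : Vx q M K) (.X 0 (cp0 e) c k) :=
      Or.inl ⟨rfl, rfl, rfl, rfl, rfl⟩
    rw [hπ, hs, hL] at h1
    rcases h1 with h1 | h1
    · exact h1.2.2.2.2.symm
    · exact h1.elim
  have h1 : ∀ e c k i, τ 0 e c k (i + 1) = τ 0 e c k i + 1 := by
    intro e c k i
    have e1 : Ad nm g (.L 0 e c k i : Vx q M K) (.L 1 e c k i) :=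
      Or.inl ⟨rfl, rfl, rfl, Or.inl ⟨rfl, rfl, rfl⟩⟩
    have e2 : Ad nm g (.L 1 e c k i : Vx q M K) (.L 2 e c k i) :=
      Or.inl ⟨rfl, rfl, rfl, Or.inr (Or.inl ⟨rfl, rfl, rfl⟩)⟩
    have e3 : Ad nm g (.L 2 e c k i : Vx q M K) (.L 0 e c k (i + 1)) :=
      Or.inl ⟨rfl, rfl, rfl, Or.inr (Or.inr ⟨rfl, rfl, rfl⟩)⟩
    rw [hπ, hL, hL] at e1 e2 e3
    rw [(ad_LL e3).2.2.2 rfl rfl, (ad_LL e2).2.2.1 rfl rfl, (ad_LL e1).2.1 rfl rfl]
  have h2 : ∀ e c k (n : ℕ), τ 0 e c k (n : ZMod q) = (n : ZMod q) + τ 0 e c k 0 := by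
    intro e c k n
    induction n with
    | zero => simp
    | succ n ih => push_cast; rw [h1, ih]; ring
  have h3 : ∀ e c k i, π (.L 0 e c k i) = .L 0 e c (k + s (cp0 e) c) (i + τ 0 e c k 0) := by
    intro e c k i
    rw [hL, hk]
    have h3 := h2 e c k i.val
    rw [ZMod.natCast_zmod_val] at h3
    rw [h3]
  refine ⟨s, fun e c k => τ 0 e c k 0, ?_, ?_, ?_, h3⟩
  · intro o
    obtain ⟨a', b', hT⟩ := code_T (map_core hK hπ (.T o 0 0 : Vx q M K) trivial).1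
      (map_core hK hπ (.T o 0 0 : Vx q M K) trivial).2
    have e1 : Ad nm g (.T o 0 0 : Vx q M K) (.X 0 o 0 0) := Or.inl ⟨rfl, rfl, Or.inl ⟨rfl, rfl⟩⟩
    have e2 : Ad nm g (.T o 0 0 : Vx q M K) (.X 0 o 1 0) :=
      Or.inl ⟨rfl, rfl, Or.inr (Or.inl ⟨rfl, rfl⟩)⟩
    have e3 : Ad nm g (.T o 0 0 : Vx q M K) (.X 0 o 2 g) :=
      Or.inl ⟨rfl, rfl, Or.inr (Or.inr ⟨rfl, by ring⟩)⟩
    rw [hπ, hs, hT] at e1 e2 e3
    rcases e1 with ⟨-, -, e1⟩ | e1
    swap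
    · exact e1.elim
    rcases e2 with ⟨-, -, e2⟩ | e2
    swap
    · exact e2.elim
    rcases e3 with ⟨-, -, e3⟩ | e3
    swap
    · exact e3.elim
    simp at e1 e2 e3
    rw [e1, e2, ← e3]
    ring
  · intro o o' c h
    have e1 : Ad nm g (.X 0 o c 0 : Vx q M K) (.X 0 o' c 0) :=
      Or.inl (Or.inr ⟨rfl, rfl, h, rfl, rfl⟩)
    rw [hπ, hs, hs, zero_add, zero_add] at e1
    have hne : o ≠ o' := ne_of_lt h.2.1
    rcases e1 with (e1 | e1) | (e1 | e1)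
    · exact absurd e1.1 hne
    · exact e1.2.2.2.2
    · exact absurd e1.1 hne.symm
    · exact e1.2.2.2.2.symm
  · intro e c
    obtain ⟨h', hW⟩ := code_W (map_core hK hπ (.W e c 0 : Vx q M K) trivial).1
      (map_core hK hπ (.W e c 0 : Vx q M K) trivial).2
    have e1 : Ad nm g (.W e c 0 : Vx q M K) (.X 0 (cp1 e) c 0) := Or.inl ⟨rfl, rfl, rfl, by simp⟩
    rw [hπ, hs, hW] at e1
    rcases e1 with e1 | e1
    swap
    · exact e1.elim
    have e2 : s (cp1 e) c = ∑ k, h' k := by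
      have := e1.2.2.2
      rwa [zero_add] at this
    have e3 : ∀ k, τ 0 e c k 0 = h' (k + s (cp0 e) c) := by
      intro k
      have e3 : Ad nm g (.W e c 0 : Vx q M K) (.L 0 e c k 0) := Or.inl ⟨rfl, rfl, rfl, rfl⟩
      rw [hπ, hW, h3] at e3
      rcases e3 with e3 | e3
      swap
      · exact e3.elim
      have := e3.2.2.2
      rwa [zero_add] at this
    rw [e2]
    simp only [e3]
    exact Fintype.sum_equiv (Equiv.addRight (s (cp0 e) c)) _ _ fun _ => rfl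

end

end Pool.Agent.R892.Ord
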